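import Pool.Agent.Helper69.QS.Lattice3

set_option autoImplicit false

/-!
# The algebra: action of `U 5 1` on the generating function
-/

namespace Pool.Agent.Helper69.QS

open PowerSeries Filter Finset
open scoped PowerSeries.WithPiTopology Topology

lemma coeff_zero_E : coeff 0 E = 1 := by
  have h := coeff_pentagonalSeries_pentagonal ℤ 0
  have h0 : pentagonal 0 = 0 := by decide
  rw [h0] at h
  unfold E
  rw [h]
  simp

lemma four_ne_zero' : (4 : ℤ⟦X⟧) ≠ 0 := by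
  intro h
  have h1 := congrArg (coeff 0) h
  have hc : (4 : ℤ⟦X⟧) = C (4 : ℤ) := rfl
  rw [hc, coeff_C, map_zero] at h1
  norm_num at h1

lemma E_ne_zero : E ≠ 0 := by
  intro h
  have := coeff_zero_E
  rw [h] at this
  simp at this

lemma V_injective (k : ℕ) [NeZero k] : Function.Injective (V k) := by
  intro A B h
  ext n
  rw [← coeff_V_mul k A n, ← coeff_V_mul k B n, h]

lemma V_ne_zero (k : ℕ) [NeZero k] {A : ℤ⟦X⟧} (h : A ≠ 0) : V k A ≠ 0 := by
  intro h0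
  apply h
  apply V_injective k
  rw [h0, map_zero]

lemma F_ne_zero : F ≠ 0 := by
  intro h
  have h1 := F_mul_E
  rw [h, zero_mul] at h1
  exact V_ne_zero 2 E_ne_zero h1.symm

lemma F_mul_Oo : F * Oo = 1 := by
  have h1 := F_mul_E
  have h2 := Oo_mul
  apply mul_right_cancel₀ (V_ne_zero 2 E_ne_zero)
  linear_combination F * h2 + h1

lemma F_mul_phi : F * phi = E := by
  rw [phi_eq]
  have h1 := Oo_mul
  have h2 := F_mul_Oo
  linear_combination Oo * V 2 E * h2 + h1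

/-- `ψ(q)` -/
noncomputable def psi : ℤ⟦X⟧ := F * F * E

/-- `v = f₂ ψ = f₂³/f₁` -/
noncomputable def vv : ℤ⟦X⟧ := V 2 E * psi

/-- the product form of the generating function of `DSOME` -/
noncomputable def Ds : ℤ⟦X⟧ := V 2 F * D Fo - Fo * D (V 2 F)

lemma Psi2_eq' : Psi2 = 2 * psi := Psi2_eq

/-- `8 DSOME = F - F φ⁴` -/
lemma eight_Ds : 8 * Ds = F - F * (phi * phi) * (phi * phi) := by
  have h1 := J_sq_eq
  rw [J_eq, Psi2_eq', map_mul, map_ofNat, phip_eq] at h1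
  have h2 : V 2 psi = V 2 F * V 2 F * V 2 E := by unfold psi; rw [map_mul, map_mul]
  rw [h2] at h1
  have d0 : D (2 * (V 2 F * V 2 F * V 2 E)) = 2 * D (V 2 F * V 2 F * V 2 E) := by
    rw [D_mul]
    have : D (2 : ℤ⟦X⟧) = 0 := by
      have : (2 : ℤ⟦X⟧) = 1 + 1 := by norm_num
      rw [this, D_add, D_one]; ring
    rw [this]; ring
  rw [d0, D_mul, D_mul, D_mul, D_mul] at h1
  have h3 := Fo_mul
  have h4 := F_mul_E
  have h5 := F_mul_phi
  unfold Ds
  -- E^6 = F^2 e2^2 - 8 F e2^2 Ds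
  have h6 : E ^ 6 = F ^ 2 * (V 2 E) ^ 2 - 8 * F * (V 2 E) ^ 2 * (V 2 F * D Fo - Fo * D (V 2 F)) := by
    have h7 : (4 : ℤ⟦X⟧) * E ^ 6 = 4 * (F ^ 2 * (V 2 E) ^ 2 - 8 * F * (V 2 E) ^ 2 * (V 2 F * D Fo - Fo * D (V 2 F))) := by
      linear_combination h1 + (4 * V 2 E ^ 2 * (Fo * V 2 F + F) - 32 * V 2 E ^ 2 * (V 2 F * D Fo - Fo * D (V 2 F))) * h3
    exact mul_left_cancel₀ four_ne_zero' h7
  rw [← h4] at h6
  -- cancel E^2
  have h9 : E ^ 4 = F ^ 4 - 8 * F ^ 3 * (V 2 F * D Fo - Fo * D (V 2 F)) := by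
    apply mul_left_cancel₀ (pow_ne_zero 2 E_ne_zero)
    linear_combination h6
  rw [← h5] at h9
  apply mul_left_cancel₀ (pow_ne_zero 3 F_ne_zero)
  linear_combination h9

/-- `W = f(-q,-q^9) f(-q^3,-q^7)` -/
noncomputable def W : ℤ⟦X⟧ := tm 1 9 * tm 3 7

lemma V5V2 (A : ℤ⟦X⟧) : V 5 (V 2 A) = V 10 A := V_V 5 2 A

lemma V2V2 (A : ℤ⟦X⟧) : V 2 (V 2 A) = V 4 A := V_V 2 2 A

lemma W_mul : W * V 5 E = V 10 E ^ 3 * Oo := by
  unfold W
  rw [tm_eq 1 9 10 (by norm_num) (by norm_num) rfl, tm_eq 3 7 10 (by norm_num) (by norm_num) rfl]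
  have h1 := PN_mul_five
  have h2 := PN_five_mul
  linear_combination V 10 E ^ 3 * h1 - V 10 E ^ 2 * (PN 1 10 * PN 9 10) * (PN 3 10 * PN 7 10) * h2

lemma vv_mul_E : vv * E = V 2 E ^ 3 := by
  unfold vv psi
  have h := F_mul_E
  linear_combination (V 2 E * (F * E + V 2 E)) * h

lemma V5_vv_mul : V 5 vv * V 5 E = V 10 E ^ 3 := by
  rw [← map_mul, vv_mul_E, map_pow, V5V2]

lemma F_mul_W : F * W = V 5 vv := by
  apply mul_right_cancel₀ (V_ne_zero 5 E_ne_zero)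
  have h1 := W_mul
  have h2 := V5_vv_mul
  have h3 := F_mul_Oo
  linear_combination F * h1 + V 10 E ^ 3 * h3 - h2

/-- `P = φ(-q)²` -/
noncomputable def P : ℤ⟦X⟧ := phi * phi

lemma V5P_sub_P : V 5 P - P = 4 * (X * W) := by
  have h := phi_sq_eq
  unfold P W
  linear_combination (-1 : ℤ⟦X⟧) * h

lemma C1 : F * (V 5 P - P) = 4 * (X * V 5 vv) := by
  rw [V5P_sub_P, ← F_mul_W]; ring

lemma psi_sq_eq : psi * psi = X * V 5 (psi * psi) + tp 1 4 * tp 2 3 := by
  have h := Psi2_sq_eq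
  rw [Psi2_eq'] at h
  apply mul_left_cancel₀ four_ne_zero'
  have h5 : V 5 (2 * psi * (2 * psi)) = 4 * V 5 (psi * psi) := by
    rw [show (2 : ℤ⟦X⟧) * psi * (2 * psi) = 4 * (psi * psi) by ring, map_mul, map_ofNat]
  rw [h5] at h
  linear_combination h

lemma psi_sq : psi * psi = F * vv := by
  unfold vv
  have h := F_mul_E
  unfold psi
  linear_combination (F * F * F * E) * h

lemma vv_eq : vv = Oo * (psi * psi) := by
  rw [psi_sq]
  have h := F_mul_Oo
  linear_combination -vv * h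

lemma tp_mul : tp 1 4 * tp 2 3 * V 5 F = V 5 E ^ 2 * F := by
  rw [tp_eq 1 4 5 (by norm_num) (by norm_num) rfl, tp_eq 2 3 5 (by norm_num) (by norm_num) rfl]
  have h := PP_mul_five
  linear_combination V 5 E ^ 2 * h

lemma C2 : vv = V 5 F * (V 5 P + X * W) := by
  apply mul_left_cancel₀ (V_ne_zero 5 F_ne_zero)
  apply mul_left_cancel₀ (V_ne_zero 5 E_ne_zero)
  rw [vv_eq, psi_sq_eq, psi_sq, map_mul]
  have h1 := tp_mul
  have h2 := F_mul_Oo
  have h3 := W_mul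
  have h4 := V5_vv_mul
  have h5 : V 5 F * V 5 phi = V 5 E := by rw [← map_mul, F_mul_phi]
  have h6 : V 5 P = V 5 phi * V 5 phi := by unfold P; rw [map_mul]
  rw [h6]
  linear_combination (V 5 E * Oo) * h1 + V 5 E ^ 3 * h2 + (V 5 F ^ 2 * X * Oo) * h4
    - (V 5 F ^ 2 * X) * h3 - (V 5 E * (V 5 F * V 5 phi + V 5 E)) * h5

lemma C2' : 4 * vv = V 5 F * (5 * V 5 P - P) := by
  have h1 := C2
  have h2 := V5P_sub_P
  linear_combination 4 * h1 - V 5 F * h2

/-- `Θ = f₁ φ(-q)` -/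
noncomputable def Th : ℤ⟦X⟧ := E * phi

lemma Th_eq : Th = F * P := by
  unfold Th P
  rw [← F_mul_phi]; ring

lemma U_Th : U 5 1 Th = V 5 Th - 4 * vv := by
  unfold Th
  rw [U_theta, Psi2_eq']
  unfold vv
  ring

lemma U51_X : U 5 1 X = 1 := by
  have h := U_succ_X_mul 5 0 1
  rw [mul_one] at h
  rw [show (1 : ℕ) = 0 + 1 from rfl, h]
  have := U_zero_V 5 1
  rwa [map_one] at this

lemma U51_four (A : ℤ⟦X⟧) : U 5 1 (4 * A) = 4 * U 5 1 A := by
  have : (4 : ℤ⟦X⟧) * A = A + A + A + A := by ring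
  rw [this, map_add, map_add, map_add]; ring

lemma U51_eight (A : ℤ⟦X⟧) : U 5 1 (8 * A) = 8 * U 5 1 A := by
  have : (8 : ℤ⟦X⟧) * A = 4 * A + 4 * A := by ring
  rw [this, map_add, U51_four]; ring

lemma P_mul_UF : P * U 5 1 F = V 5 Th := by
  have h1 := congrArg (U 5 1) C1
  have e1 : F * (V 5 P - P) = V 5 P * F - Th := by rw [Th_eq]; ring
  have e2 : X * V 5 vv = V 5 vv * X := by ring
  rw [e1, map_sub, U_mul_V 5 1 (by norm_num), U_Th, U51_four, e2, U_mul_V 5 1 (by norm_num), U51_X] at h1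
  linear_combination h1

lemma U_ThP : U 5 1 (Th * P) = 5 * V 5 (Th * P) - 12 * (vv * P) := by
  have h0 : Th * (V 5 P - P) = 4 * (X * P * V 5 vv) := by
    rw [Th_eq]
    linear_combination P * C1
  have h1 := congrArg (U 5 1) h0
  have e1 : Th * (V 5 P - P) = V 5 P * Th - Th * P := by ring
  have e2 : X * P * V 5 vv = V 5 vv * (X * P) := by ring
  have e3 : U 5 1 (X * P) = U 5 0 P := U_succ_X_mul 5 0 P
  rw [e1, map_sub, U_mul_V 5 1 (by norm_num), U_Th, U51_four, e2, U_mul_V 5 1 (by norm_num),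
    e3] at h1
  have h2 : U 5 0 P = 2 * P - V 5 P := U_phi_sq
  rw [h2] at h1
  have h3 := C2'
  have h4 : V 5 Th = V 5 F * V 5 P := by rw [Th_eq, map_mul]
  have h5 : V 5 (Th * P) = V 5 Th * V 5 P := map_mul _ _ _
  rw [h5, h4]
  rw [h4] at h1
  linear_combination (-1 : ℤ⟦X⟧) * h1 + V 5 P * h3

lemma coeff_zero_F : coeff 0 F = 1 := by
  have h := congrArg (coeff 0) F_mul_E
  rw [coeff_V, if_pos (dvd_zero _), Nat.zero_div] at h
  have h1 : coeff 0 (F * E) = coeff 0 F * coeff 0 E := by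
    simp [coeff_zero_eq_constantCoeff]
  rw [h1, coeff_zero_E, mul_one] at h
  exact h

lemma coeff_zero_phi : coeff 0 phi = 1 := by
  have h := congrArg (coeff 0) F_mul_phi
  have h1 : coeff 0 (F * phi) = coeff 0 F * coeff 0 phi := by
    simp [coeff_zero_eq_constantCoeff]
  rw [h1, coeff_zero_F, coeff_zero_E, one_mul] at h
  exact h

lemma coeff_zero_P : coeff 0 P = 1 := by
  have h1 : coeff 0 P = coeff 0 phi * coeff 0 phi := by
    simp [P, coeff_zero_eq_constantCoeff]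
  rw [h1, coeff_zero_phi]; norm_num

lemma four_dvd_coeff_P : ∀ n : ℕ, 0 < n → (4 : ℤ) ∣ coeff n P := by
  intro n
  induction n using Nat.strong_induction_on with
  | _ n ih =>
    intro hn
    have h := congrArg (coeff n) V5P_sub_P
    have hc : (4 : ℤ⟦X⟧) = C (4 : ℤ) := rfl
    rw [map_sub, coeff_V, hc, coeff_C_mul] at h
    by_cases h5 : 5 ∣ n
    · rw [if_pos h5] at h
      obtain ⟨m, rfl⟩ := h5
      rw [Nat.mul_div_cancel_left _ (by norm_num)] at h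
      obtain ⟨c, hc⟩ := ih m (by omega) (by omega)
      rw [hc] at h
      exact ⟨c - coeff (5 * m) (X * W), by linarith⟩
    · rw [if_neg h5] at h
      exact ⟨-coeff n (X * W), by linarith⟩

lemma exists_T : ∃ T : ℤ⟦X⟧, P = 1 + 4 * T := by
  refine ⟨PowerSeries.mk fun n => coeff n (P - 1) / 4, ?_⟩
  ext n
  have hc : (4 : ℤ⟦X⟧) = C (4 : ℤ) := rfl
  rw [map_add, hc, coeff_C_mul, coeff_mk]
  have : (4 : ℤ) ∣ coeff n (P - 1) := by
    rcases Nat.eq_zero_or_pos n with rfl | hn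
    · rw [map_sub, coeff_zero_P, coeff_zero_one]; simp
    · rw [map_sub, coeff_one, if_neg (by omega), sub_zero]
      exact four_dvd_coeff_P n hn
  rw [Int.mul_ediv_cancel' this, map_sub]
  ring

lemma exists_Pinv : ∃ Q : ℤ⟦X⟧, P * Q = 1 := by
  have h : IsUnit P := by
    rw [PowerSeries.isUnit_iff_constantCoeff, ← coeff_zero_eq_constantCoeff_apply, coeff_zero_P]
    exact isUnit_one
  exact h.exists_right_inv

/-- `D v ≡ v L` modulo 8, `L = Oo * Ds` -/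
lemma D_vv : ∃ R : ℤ⟦X⟧, D vv - vv * (Oo * Ds) = 8 * R := by
  have h1 := Fo_mul
  have h2 := F_mul_E
  have h3 := F_mul_Oo
  have h4 : V 4 E = V 2 F * V 2 E := by rw [← V2V2, ← map_mul, F_mul_E]
  have h5 : vv * V 2 F = Fo * (V 4 E) ^ 2 := by
    rw [h4]
    unfold vv psi
    linear_combination (V 2 E * F * V 2 F) * h2 - (V 2 E ^ 2 * V 2 F) * h1
  have h6 := congrArg D h5
  rw [D_mul, D_mul, pow_two, D_mul, D_V 4] at h6
  have h7 : V 2 F * V 2 Oo = 1 := by rw [← map_mul, h3, map_one]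
  refine ⟨V 2 Oo ^ 2 * (F * V 4 E * V 4 (D E)), ?_⟩
  have h8 : V 2 F ^ 2 * (D vv - vv * (Oo * Ds)) = 8 * (F * V 4 E * V 4 (D E)) := by
    unfold Ds
    push_cast at h6
    have hk : V 2 F ^ 2 * (vv * (Oo * (V 2 F * D Fo - Fo * D (V 2 F))))
        = (V 4 E) ^ 2 * (V 2 F * D Fo - Fo * D (V 2 F)) := by
      linear_combination (V 2 F * Oo * (V 2 F * D Fo - Fo * D (V 2 F))) * h5
        + (V 4 E ^ 2 * Oo * (V 2 F * D Fo - Fo * D (V 2 F))) * h1
        + (V 4 E ^ 2 * (V 2 F * D Fo - Fo * D (V 2 F))) * h3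
    rw [mul_sub, hk]
    linear_combination V 2 F * h6 - D (V 2 F) * h5 + (8 * V 4 E * V 4 (D E)) * h1
  have h9 : D vv - vv * (Oo * Ds) = V 2 Oo ^ 2 * (V 2 F ^ 2 * (D vv - vv * (Oo * Ds))) := by
    linear_combination -(V 2 F * V 2 Oo + 1) * (D vv - vv * (Oo * Ds)) * h7
  rw [h9, h8]
  ring

/-- The main congruence. -/
theorem main_congr (n : ℕ) (hn : ¬ 5 ∣ n) :
    (16 : ℤ) ∣ 5 * coeff (5 * n + 1) Ds - 4 * ((n : ℤ) + 2) * coeff n vv := by
  obtain ⟨T, hT⟩ := exists_T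
  obtain ⟨Q, hQ⟩ := exists_Pinv
  obtain ⟨R, hR⟩ := D_vv
  -- U applied to eight_Ds
  have h1 := congrArg (U 5 1) eight_Ds
  have e1 : F * (phi * phi) * (phi * phi) = Th * P := by
    rw [Th_eq]; unfold P; ring
  rw [U51_eight, map_sub, e1, U_ThP] at h1
  set L := Oo * Ds with hL
  have hP2 : P * P = 1 - 8 * L := by
    have h2 := eight_Ds
    have h3 := F_mul_Oo
    have e2 : F * (phi * phi) * (phi * phi) = F * (P * P) := by unfold P; ring
    rw [e2] at h2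
    rw [hL]
    linear_combination Oo * h2 + (1 - P * P) * h3
  have hZ : P * (5 * U 5 1 F - V 5 F) = 4 * vv := by
    have h3 := P_mul_UF
    have h4 := C2'
    have h5 : V 5 Th = V 5 F * V 5 P := by rw [Th_eq, map_mul]
    rw [h5] at h3
    linear_combination 5 * h3 - h4
  have hZ2 : 5 * U 5 1 F - V 5 F = 4 * (Q * vv) := by
    linear_combination Q * hZ - (5 * U 5 1 F - V 5 F) * hQ
  set Y := Q * vv with hY
  have hvY : vv = P * Y := by rw [hY]; linear_combination -vv * hQ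
  -- 40 U Ds
  have h6 : 40 * U 5 1 Ds = V 5 (F - 25 * (Th * P)) + 64 * Y - 480 * (L * Y) := by
    rw [map_sub, map_mul, map_ofNat]
    have h7 : vv * P = Y - 8 * (L * Y) := by
      rw [hvY]; linear_combination Y * hP2
    linear_combination 5 * h1 + hZ2 + 60 * h7
  have h8 : (5 : ℤ⟦X⟧) * (8 * U 5 1 Ds) = V 5 (F - 25 * (Th * P)) + 8 * (8 * vv - 60 * (L * vv) + 16 * (15 * (L * (T * Y)) - 2 * (T * Y))) := by
    have h9 : Y = vv - 4 * (T * Y) := by
      have : P * Y = Y + 4 * (T * Y) := by rw [hT]; ring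
      linear_combination (-1 : ℤ⟦X⟧) * hvY - this
    linear_combination h6 + (64 - 480 * L) * h9
  have h10 := congrArg (coeff n) h8
  have c8 : (8 : ℤ⟦X⟧) = C (8 : ℤ) := rfl
  have c5 : (5 : ℤ⟦X⟧) = C (5 : ℤ) := rfl
  have c16 : (16 : ℤ⟦X⟧) = C (16 : ℤ) := rfl
  have c60 : (60 : ℤ⟦X⟧) = C (60 : ℤ) := rfl
  rw [map_add, coeff_V, if_neg hn, zero_add] at h10
  rw [c8, c5, c16, c60] at h10
  simp only [map_add, map_sub, coeff_C_mul, coeff_U] at h10
  have h11 := congrArg (coeff n) hR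
  rw [map_sub, coeff_D, c8, coeff_C_mul] at h11
  have h12 : coeff n (vv * L) = coeff n (L * vv) := by rw [mul_comm]
  rw [h12] at h11
  set x := coeff (5 * n + 1) Ds
  set y := coeff n vv
  set z := coeff n (L * vv)
  set r := coeff n R
  have h13 : 5 * x = 8 * y - 60 * z + 16 * (coeff n (C (15 : ℤ) * (L * (T * Y))) - coeff n (C (2 : ℤ) * (T * Y))) := by
    have c15 : (15 : ℤ⟦X⟧) = C (15 : ℤ) := rfl
    have c2 : (2 : ℤ⟦X⟧) = C (2 : ℤ) := rfl
    rw [c15, c2] at h10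
    linarith
  rw [h13]
  have h14 : z = n * y - 8 * r := by linarith
  rw [h14]
  refine ⟨(coeff n (C (15 : ℤ) * (L * (T * Y))) - coeff n (C (2 : ℤ) * (T * Y))) - 4 * n * y + 30 * r, ?_⟩
  ring

end Pool.Agent.Helper69.QS
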