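import Pool.Agent.Helper69.QS.Gauss

set_option autoImplicit false

/-!
# Tools for integer power series: limits, theta sums, dissection operators
-/

namespace Pool.Agent.Helper69.QS

open PowerSeries Filter Finset
open scoped PowerSeries.WithPiTopology Topology

/-- substitution `q ↦ q^k` -/
noncomputable def V (k : ℕ) [NeZero k] : ℤ⟦X⟧ →+* ℤ⟦X⟧ :=
  (PowerSeries.expand k (NeZero.ne k) : ℤ⟦X⟧ →ₐ[ℤ] ℤ⟦X⟧).toRingHom

lemma coeff_V (k : ℕ) [NeZero k] (A : ℤ⟦X⟧) (n : ℕ) :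
    coeff n (V k A) = if k ∣ n then coeff (n / k) A else 0 :=
  PowerSeries.coeff_expand k (NeZero.ne k) A

lemma coeff_V_mul (k : ℕ) [NeZero k] (A : ℤ⟦X⟧) (n : ℕ) : coeff (k * n) (V k A) = coeff n A :=
  PowerSeries.coeff_expand_mul k (NeZero.ne k) A n

@[simp] lemma V_X (k : ℕ) [NeZero k] : V k X = X ^ k := PowerSeries.expand_X k (NeZero.ne k)

lemma V_monomial (k : ℕ) [NeZero k] (d : ℕ) (r : ℤ) : V k (monomial d r) = monomial (k * d) r :=
  PowerSeries.expand_monomial k (NeZero.ne k) d r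

lemma V_V (k l : ℕ) [NeZero k] [NeZero l] [NeZero (k * l)] (A : ℤ⟦X⟧) :
    V k (V l A) = V (k * l) A := by
  ext n
  rw [coeff_V]
  have hk : 0 < k := Nat.pos_of_ne_zero (NeZero.ne k)
  by_cases h1 : k ∣ n
  · obtain ⟨m, rfl⟩ := h1
    rw [if_pos (Dvd.intro _ rfl), Nat.mul_div_cancel_left _ hk, coeff_V, coeff_V]
    by_cases h2 : l ∣ m
    · rw [if_pos h2, if_pos (Nat.mul_dvd_mul_left k h2), Nat.mul_div_mul_left _ _ hk]
    · rw [if_neg h2, if_neg]
      intro h3
      exact h2 (Nat.dvd_of_mul_dvd_mul_left hk h3)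
  · rw [if_neg h1, coeff_V, if_neg]
    intro h3
    exact h1 (dvd_trans (Dvd.intro _ rfl) h3)

/-- extraction of the exponents `k n + r` -/
noncomputable def U (k r : ℕ) : ℤ⟦X⟧ →+ ℤ⟦X⟧ where
  toFun A := PowerSeries.mk fun n => coeff (k * n + r) A
  map_zero' := by ext n; simp
  map_add' A B := by ext n; simp

@[simp] lemma coeff_U (k r : ℕ) (A : ℤ⟦X⟧) (n : ℕ) : coeff n (U k r A) = coeff (k * n + r) A := by
  simp [U]

lemma U_mul_V (k r : ℕ) [NeZero k] (hr : r < k) (A B : ℤ⟦X⟧) :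
    U k r (V k A * B) = A * U k r B := by
  ext n
  have hk : 0 < k := Nat.pos_of_ne_zero (NeZero.ne k)
  rw [coeff_U, coeff_mul, coeff_mul]
  rw [← Finset.sum_filter_add_sum_filter_not _ (fun p : ℕ × ℕ => k ∣ p.1)]
  have h0 : ∑ x ∈ (antidiagonal (k * n + r)).filter (fun p : ℕ × ℕ => ¬ k ∣ p.1),
      coeff x.1 (V k A) * coeff x.2 B = 0 := by
    apply Finset.sum_eq_zero
    intro p hp
    rw [mem_filter] at hp
    rw [coeff_V, if_neg hp.2, zero_mul]
  rw [h0, add_zero]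
  symm
  apply Finset.sum_nbij' (fun p => (k * p.1, k * p.2 + r)) (fun p => (p.1 / k, (p.2 - r) / k))
  · intro p hp
    rw [HasAntidiagonal.mem_antidiagonal] at hp
    rw [mem_filter, HasAntidiagonal.mem_antidiagonal]
    refine ⟨?_, Dvd.intro _ rfl⟩
    show k * p.1 + (k * p.2 + r) = k * n + r
    rw [← hp]; ring
  · intro p hp
    rw [mem_filter, HasAntidiagonal.mem_antidiagonal] at hp
    obtain ⟨h1, m, hm⟩ := hp
    rw [HasAntidiagonal.mem_antidiagonal]
    show p.1 / k + (p.2 - r) / k = n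
    rw [hm, Nat.mul_div_cancel_left _ hk]
    have hmn : m ≤ n := by
      by_contra hcon
      push Not at hcon
      have : k * (n + 1) ≤ k * m := Nat.mul_le_mul_left k hcon
      rw [hm] at h1
      nlinarith
    have h2 : p.2 - r = k * (n - m) := by
      have h3 : k * (n - m) + k * m = k * n := by rw [← mul_add]; congr 1; omega
      rw [hm] at h1
      omega
    rw [h2, Nat.mul_div_cancel_left _ hk]
    omega
  · intro p _
    simp [Nat.mul_div_cancel_left _ hk]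
  · intro p hp
    rw [mem_filter, HasAntidiagonal.mem_antidiagonal] at hp
    obtain ⟨h1, m, hm⟩ := hp
    have hmn : m ≤ n := by
      by_contra hcon
      push Not at hcon
      have : k * (n + 1) ≤ k * m := Nat.mul_le_mul_left k hcon
      rw [hm] at h1
      nlinarith
    have h2 : p.2 = k * (n - m) + r := by
      have h3 : k * (n - m) + k * m = k * n := by rw [← mul_add]; congr 1; omega
      rw [hm] at h1
      omega
    ext
    · show k * (p.1 / k) = p.1
      rw [hm, Nat.mul_div_cancel_left _ hk]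
    · show k * ((p.2 - r) / k) + r = p.2
      rw [h2, Nat.add_sub_cancel, Nat.mul_div_cancel_left _ hk]
  · intro p _
    simp only [coeff_V_mul, coeff_U]

lemma U_zero_V (k : ℕ) [NeZero k] (A : ℤ⟦X⟧) : U k 0 (V k A) = A := by
  ext n
  rw [coeff_U, add_zero, coeff_V_mul]

lemma U_succ_X_mul (k r : ℕ) (A : ℤ⟦X⟧) : U k (r + 1) (X * A) = U k r A := by
  ext n
  rw [coeff_U, coeff_U, ← add_assoc, coeff_succ_X_mul]

/-- `q d/dq` -/
noncomputable def D (A : ℤ⟦X⟧) : ℤ⟦X⟧ := X * d⁄dX ℤ A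

@[simp] lemma coeff_D (A : ℤ⟦X⟧) (n : ℕ) : coeff n (D A) = n * coeff n A := by
  unfold D
  cases n with
  | zero => simp
  | succ n =>
    rw [coeff_succ_X_mul, coeff_derivative]
    push_cast; ring

lemma D_mul (A B : ℤ⟦X⟧) : D (A * B) = D A * B + A * D B := by
  unfold D
  rw [Derivation.leibniz, smul_eq_mul, smul_eq_mul]
  ring

lemma D_add (A B : ℤ⟦X⟧) : D (A + B) = D A + D B := by
  unfold D; rw [map_add]; ring

lemma D_one : D 1 = 0 := by
  unfold D; simp

lemma D_V (k : ℕ) [NeZero k] (A : ℤ⟦X⟧) : D (V k A) = (k : ℤ⟦X⟧) * V k (D A) := by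
  have hk : 0 < k := Nat.pos_of_ne_zero (NeZero.ne k)
  have hc : (k : ℤ⟦X⟧) = C (k : ℤ) := by simp
  ext n
  rw [hc, coeff_C_mul, coeff_D, coeff_V, coeff_V]
  split_ifs with h
  · obtain ⟨m, rfl⟩ := h
    rw [Nat.mul_div_cancel_left _ hk, coeff_D]
    push_cast; ring
  · simp

/-! ### limits -/

lemma tendsto_V (k : ℕ) [NeZero k] {u : ℕ → ℤ⟦X⟧} {L : ℤ⟦X⟧} (h : Tendsto u atTop (𝓝 L)) :
    Tendsto (fun N => V k (u N)) atTop (𝓝 (V k L)) := by
  rw [WithPiTopology.tendsto_iff_coeff_tendsto] at h ⊢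
  intro d
  simp only [coeff_V]
  split_ifs
  · exact h _
  · exact tendsto_const_nhds

lemma tendsto_D {u : ℕ → ℤ⟦X⟧} {L : ℤ⟦X⟧} (h : Tendsto u atTop (𝓝 L)) :
    Tendsto (fun N => D (u N)) atTop (𝓝 (D L)) := by
  rw [WithPiTopology.tendsto_iff_coeff_tendsto] at h ⊢
  intro d
  simp only [coeff_D]
  exact (h d).const_mul _

lemma tendsto_of_dvd {u v : ℕ → ℤ⟦X⟧} {L : ℤ⟦X⟧} (h : ∀ N, (X : ℤ⟦X⟧) ^ N ∣ u N - v N)
    (hu : Tendsto u atTop (𝓝 L)) : Tendsto v atTop (𝓝 L) := by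
  rw [WithPiTopology.tendsto_iff_coeff_tendsto] at hu ⊢
  intro d
  refine (hu d).congr' ?_
  filter_upwards [eventually_gt_atTop d] with N hN
  have := (X_pow_dvd_iff.mp (h N)) d hN
  rw [map_sub, sub_eq_zero] at this
  exact this

lemma tendsto_subseq {u : ℕ → ℤ⟦X⟧} {L : ℤ⟦X⟧} (h : Tendsto u atTop (𝓝 L)) (k : ℕ) (hk : 0 < k) :
    Tendsto (fun N => u (k * N)) atTop (𝓝 L) :=
  h.comp (tendsto_id.const_mul_atTop' hk)

lemma theta_tendsto {s : ℤ → ℤ⟦X⟧} {L : ℤ⟦X⟧} (h : HasSum s L) :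
    Tendsto (fun N : ℕ => ∑ j ∈ range (2 * N + 1), s ((j : ℤ) - N)) atTop (𝓝 L) := by
  have h1 : Tendsto (fun N : ℕ => Finset.Icc (-(N : ℤ)) N) atTop atTop := by
    apply tendsto_atTop_finset_of_monotone
    · intro a b hab x hx
      simp only [Finset.mem_Icc] at hx ⊢
      omega
    · intro x
      refine ⟨x.natAbs, ?_⟩
      simp only [Finset.mem_Icc]
      omega
  have h2 := h.comp h1
  refine h2.congr ?_
  intro N
  simp only [Function.comp_apply]
  symm
  apply Finset.sum_nbij (fun j : ℕ => (j : ℤ) - N)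
  · intro j hj
    rw [mem_range] at hj
    rw [Finset.mem_Icc]
    omega
  · intro a _ b _ hab
    simp only at hab
    omega
  · intro x hx
    rw [Finset.mem_coe, Finset.mem_Icc] at hx
    refine ⟨(x + N).toNat, ?_, ?_⟩
    · rw [Finset.mem_coe, mem_range]; omega
    · simp only; omega
  · intro j _; rfl

/-! ### theta type sums -/

/-- finite sublevel sets -/
def FF {ι : Type*} (e : ι → ℕ) : Prop := ∀ d, {i | e i ≤ d}.Finite

lemma FF.add {ι κ : Type*} {e : ι → ℕ} {e' : κ → ℕ} (h : FF e) (h' : FF e') :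
    FF (fun p : ι × κ => e p.1 + e' p.2) := by
  intro d
  apply ((h d).prod (h' d)).subset
  intro p hp
  simp only [Set.mem_ofPred_eq] at hp
  exact ⟨by simp only [Set.mem_ofPred_eq]; omega, by simp only [Set.mem_ofPred_eq]; omega⟩

lemma FF.of_bound {e : ℤ → ℕ} (c : ℕ) (h : ∀ k : ℤ, (k.natAbs : ℕ) ≤ e k + c) : FF e := by
  intro d
  apply (Set.finite_Icc (-((d : ℤ) + c)) (d + c)).subset
  intro k hk
  simp only [Set.mem_ofPred_eq] at hk
  have := h k
  simp only [Set.mem_Icc]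
  omega

lemma FF.mono {ι : Type*} {e e' : ι → ℕ} (h : FF e) (hle : ∀ i, e i ≤ e' i) : FF e' := by
  intro d
  apply (h d).subset
  intro i hi
  simp only [Set.mem_ofPred_eq] at hi ⊢
  exact le_trans (hle i) hi

lemma summable_mon {ι : Type*} {e : ι → ℕ} (g : ι → ℤ) (h : FF e) :
    Summable (fun i => (monomial (e i) (g i) : ℤ⟦X⟧)) := by
  rw [WithPiTopology.summable_iff_summable_coeff]
  intro d
  apply summable_of_hasFiniteSupport
  apply (h d).subset
  intro i hi
  rw [Function.mem_support, coeff_monomial] at hi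
  simp only [Set.mem_ofPred_eq]
  by_contra hcon
  apply hi
  rw [if_neg]
  omega

/-- theta type series -/
noncomputable def th {ι : Type*} (e : ι → ℕ) (g : ι → ℤ) : ℤ⟦X⟧ := ∑' i, monomial (e i) (g i)

lemma hasSum_th {ι : Type*} {e : ι → ℕ} (g : ι → ℤ) (h : FF e) :
    HasSum (fun i => (monomial (e i) (g i) : ℤ⟦X⟧)) (th e g) := (summable_mon g h).hasSum

lemma hasSum_mul {ι κ : Type*} {e : ι → ℕ} {g : ι → ℤ} {e' : κ → ℕ} {g' : κ → ℤ} {A B : ℤ⟦X⟧}
    (h : FF e) (h' : FF e') (hA : HasSum (fun i => (monomial (e i) (g i) : ℤ⟦X⟧)) A)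
    (hB : HasSum (fun i => (monomial (e' i) (g' i) : ℤ⟦X⟧)) B) :
    HasSum (fun p : ι × κ => (monomial (e p.1 + e' p.2) (g p.1 * g' p.2) : ℤ⟦X⟧)) (A * B) := by
  have hs : Summable (fun p : ι × κ => (monomial (e p.1) (g p.1) : ℤ⟦X⟧) * monomial (e' p.2) (g' p.2)) := by
    have := summable_mon (fun p : ι × κ => g p.1 * g' p.2) (h.add h')
    refine this.congr ?_
    intro p
    rw [monomial_mul_monomial]
  have := hA.mul hB hs
  refine this.congr_fun ?_
  intro p
  rw [monomial_mul_monomial]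

lemma hasSum_V {ι : Type*} {f : ι → ℤ⟦X⟧} {A : ℤ⟦X⟧} (k : ℕ) [NeZero k] (h : HasSum f A) :
    HasSum (fun i => V k (f i)) (V k A) := by
  rw [WithPiTopology.hasSum_iff_hasSum_coeff] at h ⊢
  intro d
  simp only [coeff_V]
  split_ifs
  · exact h _
  · exact hasSum_zero

lemma hasSum_D {ι : Type*} {f : ι → ℤ⟦X⟧} {A : ℤ⟦X⟧} (h : HasSum f A) :
    HasSum (fun i => D (f i)) (D A) := by
  rw [WithPiTopology.hasSum_iff_hasSum_coeff] at h ⊢
  intro d
  simp only [coeff_D]
  exact (h d).mul_left _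

lemma hasSum_U {ι : Type*} {f : ι → ℤ⟦X⟧} {A : ℤ⟦X⟧} (k r : ℕ) (h : HasSum f A) :
    HasSum (fun i => U k r (f i)) (U k r A) := by
  rw [WithPiTopology.hasSum_iff_hasSum_coeff] at h ⊢
  intro d
  simp only [coeff_U]
  exact h _

lemma D_monomial (d : ℕ) (r : ℤ) : D (monomial d r) = monomial d (d * r) := by
  ext n
  rw [coeff_D, coeff_monomial, coeff_monomial]
  split_ifs with h
  · rw [h]
  · ring

lemma U_monomial (k r : ℕ) (d : ℕ) (g : ℤ) (m : ℕ) (hk : 0 < k) (h : d = k * m + r) :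
    U k r (monomial d g) = monomial m g := by
  ext n
  rw [coeff_U, coeff_monomial, coeff_monomial]
  by_cases hn : n = m
  · subst hn; rw [if_pos rfl, if_pos h.symm]
  · rw [if_neg hn, if_neg]
    intro h1
    apply hn
    rw [h] at h1
    have : k * n = k * m := by omega
    exact Nat.eq_of_mul_eq_mul_left hk this

lemma U_monomial_zero (k r : ℕ) (d : ℕ) (g : ℤ) (h : ∀ n, k * n + r ≠ d) :
    U k r (monomial d g) = 0 := by
  ext n
  rw [coeff_U, coeff_monomial, if_neg (h n), map_zero]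

/-- Transfer of a sum along an injective parametrisation. -/
lemma hasSum_indicator_of_param {ι κ : Type*} {f : ι → ℤ⟦X⟧} {g : κ → ι} {A : ℤ⟦X⟧}
    (hg : Function.Injective g) (h : HasSum (fun j => f (g j)) A) :
    HasSum ((Set.range g).indicator f) A := by
  rw [← hg.hasSum_iff]
  · refine h.congr_fun ?_
    intro j
    simp
  · intro x hx
    exact Set.indicator_of_notMem hx f

end Pool.Agent.Helper69.QS
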