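import Pool.Agent.Helper69.QS.Alg

set_option autoImplicit false

/-!
# The combinatorial definition of `DSOME` and its generating function
-/

namespace Pool.Agent.Helper69.QS

open PowerSeries Filter Finset
open scoped PowerSeries.WithPiTopology Topology

/-- `DSOME(n)`: the sum over the partitions of `n` into distinct parts of
(sum of the odd parts) minus (sum of the even parts). -/
def DSOME (n : ℕ) : ℤ :=
  ∑ p ∈ Nat.Partition.distincts n,
    (((p.parts.filter (fun a => Odd a)).sum : ℤ) - ((p.parts.filter (fun a => Even a)).sum : ℤ))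

/-- the sign of a part -/
def ep (a : ℕ) : ℤ := if Odd a then 1 else -1

/-- the weight of a finite set -/
def wt (S : Finset ℕ) : ℤ := ∑ a ∈ S, ep a * a

/-- weighted generating function of the subsets of `s` -/
noncomputable def TT (s : Finset ℕ) : ℤ⟦X⟧ := ∑ S ∈ s.powerset, monomial (∑ a ∈ S, a) (wt S)

/-- generating function of the subsets of `s` -/
noncomputable def GG (s : Finset ℕ) : ℤ⟦X⟧ := ∑ S ∈ s.powerset, monomial (∑ a ∈ S, a) 1

lemma GG_insert (s : Finset ℕ) (a : ℕ) (ha : a ∉ s) : GG (insert a s) = (1 + X ^ a) * GG s := by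
  unfold GG
  rw [sum_powerset_insert ha, add_mul, one_mul, mul_sum]
  congr 1
  apply sum_congr rfl
  intro S hS
  have : a ∉ S := fun h => ha (mem_powerset.mp hS h)
  rw [sum_insert this, X_pow_eq, monomial_mul_monomial, one_mul]

lemma TT_insert (s : Finset ℕ) (a : ℕ) (ha : a ∉ s) :
    TT (insert a s) = (1 + X ^ a) * TT s + C (ep a * a) * X ^ a * GG s := by
  unfold TT GG
  rw [sum_powerset_insert ha, add_mul, one_mul, add_assoc, mul_sum, mul_sum]
  congr 1
  rw [← sum_add_distrib]
  apply sum_congr rfl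
  intro S hS
  have : a ∉ S := fun h => ha (mem_powerset.mp hS h)
  unfold wt
  rw [sum_insert this, sum_insert this, X_pow_eq, monomial_mul_monomial, one_mul,
    ← monomial_zero_eq_C_apply, monomial_mul_monomial, monomial_mul_monomial, zero_add,
    mul_one, mul_one, ← map_add, add_comm (∑ x ∈ S, ep x * (x : ℤ)) (ep a * (a : ℤ))]

lemma ep_odd (M : ℕ) : ep (2 * M + 1) = 1 := by
  unfold ep
  rw [if_pos ⟨M, rfl⟩]

lemma ep_even (M : ℕ) : ep (2 * M + 2) = -1 := by
  unfold ep
  rw [if_neg]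
  rw [Nat.not_odd_iff_even]
  exact ⟨M + 1, by ring⟩

lemma D_X_pow (k : ℕ) : D ((X : ℤ⟦X⟧) ^ k) = C (k : ℤ) * X ^ k := by
  rw [X_pow_eq, D_monomial, ← monomial_zero_eq_C_apply, monomial_mul_monomial, zero_add]

lemma TT_GG_eq (M : ℕ) :
    TT (Icc 1 (2 * M)) =
      (∏ i ∈ range M, (1 + (X : ℤ⟦X⟧) ^ (2 * (i + 1)))) * D (∏ m ∈ range M, (1 + (X : ℤ⟦X⟧) ^ (1 + 2 * m)))
      - (∏ m ∈ range M, (1 + (X : ℤ⟦X⟧) ^ (1 + 2 * m))) * D (∏ i ∈ range M, (1 + (X : ℤ⟦X⟧) ^ (2 * (i + 1)))) ∧
    GG (Icc 1 (2 * M)) =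
      (∏ m ∈ range M, (1 + (X : ℤ⟦X⟧) ^ (1 + 2 * m))) * (∏ i ∈ range M, (1 + (X : ℤ⟦X⟧) ^ (2 * (i + 1)))) := by
  induction M with
  | zero =>
    have h : Icc 1 (2 * 0) = (∅ : Finset ℕ) := by decide
    rw [h]
    simp [TT, GG, wt, D_one]
  | succ M ih =>
    obtain ⟨ih1, ih2⟩ := ih
    have h1 : Icc 1 (2 * (M + 1)) = insert (2 * M + 2) (insert (2 * M + 1) (Icc 1 (2 * M))) := by
      ext x
      simp only [mem_Icc, mem_insert]
      omega
    have n1 : 2 * M + 1 ∉ Icc 1 (2 * M) := by simp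
    have n2 : 2 * M + 2 ∉ insert (2 * M + 1) (Icc 1 (2 * M)) := by
      simp only [mem_Icc, mem_insert]; omega
    rw [h1, TT_insert _ _ n2, GG_insert _ _ n2, TT_insert _ _ n1, GG_insert _ _ n1, ih1, ih2,
      prod_range_succ, prod_range_succ, ep_odd, ep_even]
    set A := ∏ m ∈ range M, (1 + (X : ℤ⟦X⟧) ^ (1 + 2 * m))
    set B := ∏ i ∈ range M, (1 + (X : ℤ⟦X⟧) ^ (2 * (i + 1)))
    have e1 : 1 + 2 * M = 2 * M + 1 := by ring
    have e2 : 2 * (M + 1) = 2 * M + 2 := by ring
    rw [e1, e2, D_mul, D_mul, D_add, D_add, D_one, D_X_pow, D_X_pow]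
    have c1 : (C ((1 : ℤ) * ((2 * M + 1 : ℕ) : ℤ)) : ℤ⟦X⟧) = C ((2 * M + 1 : ℕ) : ℤ) := by rw [one_mul]
    have c2 : (C ((-1 : ℤ) * ((2 * M + 2 : ℕ) : ℤ)) : ℤ⟦X⟧) = -C ((2 * M + 2 : ℕ) : ℤ) := by
      rw [neg_one_mul, map_neg]
    rw [c1, c2]
    constructor
    · ring
    · ring

lemma parts_weight (s : Multiset ℕ) :
    (((s.filter (fun a => Odd a)).sum : ℤ) - ((s.filter (fun a => Even a)).sum : ℤ))
      = (s.map (fun a => ep a * (a : ℤ))).sum := by
  induction s using Multiset.induction_on with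
  | empty => simp
  | cons a s ih =>
    rw [Multiset.map_cons, Multiset.sum_cons, ← ih]
    rcases Nat.even_or_odd a with h | h
    · have h' : ¬ Odd a := Nat.not_odd_iff_even.mpr h
      rw [Multiset.filter_cons_of_neg _ h', Multiset.filter_cons_of_pos _ h, Multiset.sum_cons]
      unfold ep
      rw [if_neg h']
      push_cast
      ring
    · have h' : ¬ Even a := Nat.not_even_iff_odd.mpr h
      rw [Multiset.filter_cons_of_pos _ h, Multiset.filter_cons_of_neg _ h', Multiset.sum_cons]
      unfold ep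
      rw [if_pos h]
      push_cast
      ring

lemma coeff_TT (n N : ℕ) (h : n ≤ N) : coeff n (TT (Icc 1 N)) = DSOME n := by
  unfold TT DSOME
  rw [map_sum]
  simp only [coeff_monomial]
  rw [← sum_filter]
  symm
  refine sum_bij (fun p _ => p.parts.toFinset) ?_ ?_ ?_ ?_
  · intro p hp
    have hnd : p.parts.Nodup := by
      simpa [Nat.Partition.distincts] using hp
    rw [mem_filter, mem_powerset]
    constructor
    · intro a ha
      rw [Multiset.mem_toFinset] at ha
      rw [mem_Icc]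
      refine ⟨p.parts_pos ha, ?_⟩
      have := Multiset.le_sum_of_mem ha
      rw [p.parts_sum] at this
      omega
    · have : ∑ a ∈ p.parts.toFinset, a = p.parts.sum := by
        rw [Finset.sum, Multiset.toFinset_val, Multiset.dedup_eq_self.mpr hnd, Multiset.map_id']
      rw [this, p.parts_sum]
  · intro p hp p' hp' heq
    have hnd : p.parts.Nodup := by
      simpa [Nat.Partition.distincts] using hp
    have hnd' : p'.parts.Nodup := by
      simpa [Nat.Partition.distincts] using hp'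
    apply Nat.Partition.ext
    have h1 := congrArg Finset.val heq
    simp only [Multiset.toFinset_val] at h1
    rwa [Multiset.dedup_eq_self.mpr hnd, Multiset.dedup_eq_self.mpr hnd'] at h1
  · intro S hS
    rw [mem_filter, mem_powerset] at hS
    obtain ⟨hS1, hS2⟩ := hS
    refine ⟨⟨S.val, ?_, ?_⟩, ?_, ?_⟩
    · intro i hi
      have := hS1 hi
      rw [mem_Icc] at this
      omega
    · rw [hS2]
      rw [Finset.sum, Multiset.map_id']
    · simp only [Nat.Partition.distincts, mem_filter, mem_univ, true_and]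
      exact S.nodup
    · simp
  · intro p hp
    have hnd : p.parts.Nodup := by
      simpa [Nat.Partition.distincts] using hp
    rw [parts_weight]
    unfold wt
    rw [Finset.sum, Multiset.toFinset_val, Multiset.dedup_eq_self.mpr hnd]

/-- The generating function of `DSOME`. -/
theorem coeff_Ds (n : ℕ) : coeff n Ds = DSOME n := by
  have h1 : Tendsto (fun M : ℕ => TT (Icc 1 (2 * M))) atTop (𝓝 Ds) := by
    have a := tendsto_PP 1 2 one_pos two_pos
    have b := tendsto_VF 2
    have h := (b.mul (tendsto_D a)).sub (a.mul (tendsto_D b))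
    refine h.congr ?_
    intro M
    rw [(TT_GG_eq M).1]
  rw [WithPiTopology.tendsto_iff_coeff_tendsto] at h1
  have h2 := h1 n
  refine tendsto_nhds_unique h2 ?_
  refine tendsto_const_nhds.congr' ?_
  filter_upwards [eventually_ge_atTop n] with M hM
  exact (coeff_TT n (2 * M) (by omega)).symm

end Pool.Agent.Helper69.QS
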