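import Pool.Agent.Helper69.QS.Prod

set_option autoImplicit false

/-!
# Jacobi's identity for the cube of the Euler function
-/

namespace Pool.Agent.Helper69.QS

open PowerSeries Filter Finset TrivSqZeroExt
open scoped PowerSeries.WithPiTopology Topology

/-- `∑_k (-1)^k (2k+1) q^(k(k+1)/2)` over all integers -/
noncomputable def J : ℤ⟦X⟧ := th tri (fun k => sg k * (2 * k + 1))

lemma hasSum_J : HasSum (fun k : ℤ => (monomial (tri k) (sg k * (2 * k + 1)) : ℤ⟦X⟧)) J :=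
  hasSum_th _ FF_tri

abbrev DN := TrivSqZeroExt ℤ⟦X⟧ ℤ⟦X⟧

/-- `1 + s ε` -/
noncomputable def un (s : ℤ⟦X⟧) : DN := inl 1 + inr s

lemma fst_un (s : ℤ⟦X⟧) : (un s).fst = 1 := by simp [un]

lemma snd_un (s : ℤ⟦X⟧) : (un s).snd = s := by simp [un]

lemma un_mul (s t : ℤ⟦X⟧) : un s * un t = un (s + t) := by
  ext
  · simp [fst_un]
  · simp [fst_un, snd_un, add_comm]

lemma un_zero : un 0 = 1 := by
  ext <;> simp [un]

lemma un_pow (s : ℤ⟦X⟧) (n : ℕ) : un s ^ n = un (n * s) := by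
  induction n with
  | zero => simp [un_zero]
  | succ n ih => rw [pow_succ, ih, un_mul]; congr 1; push_cast; ring

noncomputable def aa : DN := -un 1
noncomputable def bb : DN := -(un (-1) * inl X)

lemma aa_mul_bb : aa * bb = inl X := by
  unfold aa bb
  rw [neg_mul_neg, ← mul_assoc, un_mul]
  simp [un_zero]

lemma snd_neg_one_pow_mul (n : ℕ) (x : DN) : ((-1 : DN) ^ n * x).snd = (-1) ^ n * x.snd := by
  rcases Nat.even_or_odd n with h | h
  · rw [h.neg_one_pow, h.neg_one_pow, one_mul, one_mul]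
  · rw [h.neg_one_pow, h.neg_one_pow]; simp

lemma snd_tt (k : ℤ) : (tt aa bb k).snd = monomial (tri (k - 1)) (sg k * k) := by
  unfold tt aa bb
  rw [neg_pow, neg_pow (un (-1) * inl X), mul_pow, un_pow, un_pow, inl_pow]
  have h1 : (-1 : DN) ^ tri k * un (↑(tri k) * 1) *
      ((-1 : DN) ^ tri (k - 1) * (un (↑(tri (k - 1)) * -1) * inl (X ^ tri (k - 1))))
      = (-1 : DN) ^ (tri k + tri (k - 1)) * (un (↑(tri k) * 1) * un (↑(tri (k - 1)) * -1) * inl (X ^ tri (k - 1))) := by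
    rw [pow_add]; ring
  rw [h1, snd_neg_one_pow_mul, un_mul, snd_mul, fst_un, snd_un]
  have e1 := two_mul_tri k
  have e2 := two_mul_tri (k - 1)
  have e3 : (tri k : ℤ) = tri (k - 1) + k := by linarith
  have e4 : ((tri k : ℕ) : ℤ⟦X⟧) = (tri (k - 1) : ℕ) + C k := by
    have : ((tri k : ℤ) : ℤ⟦X⟧) = (((tri (k - 1) : ℤ) + k : ℤ) : ℤ⟦X⟧) := by rw [e3]
    push_cast at this
    rw [this]
    simp
  rw [e4, monomial_eq_C_mul_X_pow, map_mul, ← neg_one_pow_tri, map_pow, map_neg, map_one]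
  simp only [snd_inl, smul_zero, fst_inl, zero_add, MulOpposite.smul_eq_mul_unop, MulOpposite.unop_op]
  ring

lemma cube_tendsto :
    Tendsto (fun N : ℕ => ∑ j ∈ range (2 * N + 1), (monomial (tri ((j : ℤ) - N - 1)) (sg ((j : ℤ) - N) * ((j : ℤ) - N)) : ℤ⟦X⟧))
      atTop (𝓝 (-E ^ 3)) := by
  rw [← tendsto_add_atTop_iff_nat 1]
  have h1 : Tendsto (fun N => -((∏ i ∈ range (N + 1), (1 - (X : ℤ⟦X⟧) ^ (i + 1))) *
      ((∏ i ∈ range N, (1 - (X : ℤ⟦X⟧) ^ (i + 1))) * ∏ i ∈ range (N + 1), (1 - (X : ℤ⟦X⟧) ^ (i + 1))))) atTop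
      (𝓝 (-E ^ 3)) := by
    have h2 := (tendsto_add_atTop_iff_nat 1).mpr tendsto_E
    have h3 := (h2.mul (tendsto_E.mul h2)).neg
    have h4 : -(E * (E * E)) = -E ^ 3 := by ring
    rw [h4] at h3
    exact h3
  refine tendsto_of_dvd ?_ h1
  intro N
  have h5 := jtp_dvd aa bb (N + 1)
  rw [aa_mul_bb] at h5
  obtain ⟨c, hc⟩ := h5
  have h6 := congrArg TrivSqZeroExt.snd hc
  have h7 : (((inl X : DN)) ^ (N + 1) * c).snd = X ^ (N + 1) * c.snd := by
    rw [inl_pow]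
    simp
  rw [h7] at h6
  rw [snd_sub, snd_sum] at h6
  simp only [snd_tt] at h6
  refine dvd_trans (pow_dvd_pow _ (Nat.le_succ N)) ⟨c.snd, ?_⟩
  rw [← h6]
  congr 1
  rw [prod_range_succ' (fun i => 1 + aa * inl X ^ i)]
  have h8 : (1 : DN) + aa * inl X ^ 0 = -inr 1 := by
    unfold aa un
    ext <;> simp
  rw [h8]
  have h9 : ∀ x y z : DN, (x * (y * -inr 1 * z)).snd = -(x.fst * (y.fst * z.fst)) := by
    intro x y z
    simp
  rw [h9]
  have hf : ∀ (M : ℕ) (f : ℕ → DN), (∏ i ∈ range M, f i).fst = ∏ i ∈ range M, (f i).fst := by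
    intro M f
    induction M with
    | zero => simp
    | succ M ih => rw [prod_range_succ, prod_range_succ, fst_mul, ih]
  rw [hf, hf, hf]
  have g1 : ∀ i, (1 - (inl X : DN) ^ (i + 1)).fst = 1 - (X : ℤ⟦X⟧) ^ (i + 1) := by
    intro i
    rw [inl_pow]; simp
  have g2 : ∀ i, (1 + aa * (inl X : DN) ^ (i + 1)).fst = 1 - (X : ℤ⟦X⟧) ^ (i + 1) := by
    intro i
    rw [inl_pow]
    simp [aa, fst_un]
    ring
  have g3 : ∀ i, (1 + bb * (inl X : DN) ^ i).fst = 1 - (X : ℤ⟦X⟧) ^ (i + 1) := by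
    intro i
    rw [inl_pow]
    simp [bb, fst_un]
    ring
  simp only [g1, g2, g3]

lemma FF_tri_sub : FF (fun k : ℤ => tri (k - 1)) := by
  apply FF.of_bound 1
  intro k
  have := natAbs_le_tri_sub k
  omega

lemma tri_neg_sub (k : ℤ) : tri (-k - 1) = tri k := by
  rw [tri_eq_iff]
  have := two_mul_tri k
  rw [this]; ring

lemma J_eq : J = 2 * E ^ 3 := by
  have h1 : HasSum (fun k : ℤ => (monomial (tri (k - 1)) (sg k * k) : ℤ⟦X⟧)) (-E ^ 3) := by
    have h2 := hasSum_th (fun k => sg k * k) FF_tri_sub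
    have h3 := theta_tendsto h2
    have h4 := tendsto_nhds_unique h3 cube_tendsto
    rw [← h4]
    exact h2
  have h2 : HasSum (fun k : ℤ => (monomial (tri k) (sg (k + 1) * (k + 1)) : ℤ⟦X⟧)) (-E ^ 3) := by
    have := (Equiv.addRight (1 : ℤ)).hasSum_iff (f := fun k : ℤ => (monomial (tri (k - 1)) (sg k * k) : ℤ⟦X⟧)) (a := -E ^ 3)
    refine (this.mpr h1).congr_fun ?_
    intro k
    simp
  have h3 : HasSum (fun k : ℤ => (monomial (tri k) (sg k * k) : ℤ⟦X⟧)) (E ^ 3) := by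
    have h4 := h2.neg
    rw [neg_neg] at h4
    have := (Equiv.subLeft (-1 : ℤ)).hasSum_iff (f := fun k : ℤ => -(monomial (tri k) (sg (k + 1) * (k + 1)) : ℤ⟦X⟧)) (a := E ^ 3)
    refine (this.mpr h4).congr_fun ?_
    intro k
    simp only [Function.comp_apply, Equiv.subLeft_apply]
    have e1 : (-1 : ℤ) - k = -k - 1 := by ring
    have e2 : (-k - 1 + 1 : ℤ) = -k := by ring
    rw [e1, tri_neg_sub, e2, sg_neg, ← map_neg]
    congr 1
    ring
  have h4 : HasSum (fun k : ℤ => (monomial (tri k) (sg k * (k + 1)) : ℤ⟦X⟧)) (E ^ 3) := by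
    have h5 := h2.neg
    rw [neg_neg] at h5
    refine h5.congr_fun ?_
    intro k
    rw [sg_add, sg_one, ← map_neg]
    congr 1
    ring
  have h5 := h3.add h4
  have h6 : HasSum (fun k : ℤ => (monomial (tri k) (sg k * (2 * k + 1)) : ℤ⟦X⟧)) (E ^ 3 + E ^ 3) := by
    refine h5.congr_fun ?_
    intro k
    rw [← map_add]
    congr 1
    ring
  have h7 := hasSum_J.unique h6
  rw [h7]; ring

end Pool.Agent.Helper69.QS
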