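import Mathlib

set_option autoImplicit false

/-!
# Gaussian binomials and a finite form of the Jacobi triple product in any commutative ring
-/

namespace Pool.Agent.Helper69.QS

open Finset

variable {A : Type*} [CommRing A]

/-- Gaussian binomial coefficients. -/
def gb (Q : A) : ℕ → ℕ → A
  | _, 0 => 1
  | 0, (_ + 1) => 0
  | (n + 1), (m + 1) => gb Q n m + Q ^ (m + 1) * gb Q n (m + 1)

@[simp] lemma gb_zero_right (Q : A) (n : ℕ) : gb Q n 0 = 1 := by
  cases n <;> rfl

@[simp] lemma gb_zero_succ (Q : A) (m : ℕ) : gb Q 0 (m + 1) = 0 := rfl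

lemma gb_succ_succ (Q : A) (n m : ℕ) :
    gb Q (n + 1) (m + 1) = gb Q n m + Q ^ (m + 1) * gb Q n (m + 1) := rfl

lemma gb_eq_zero_of_lt (Q : A) : ∀ {n m : ℕ}, n < m → gb Q n m = 0
  | 0, (m + 1), _ => rfl
  | (n + 1), (m + 1), h => by
    rw [gb_succ_succ, gb_eq_zero_of_lt Q (show n < m by omega),
      gb_eq_zero_of_lt Q (show n < m + 1 by omega)]
    ring

@[simp] lemma gb_self (Q : A) (n : ℕ) : gb Q n n = 1 := by
  induction n with
  | zero => rfl
  | succ n ih => rw [gb_succ_succ, ih, gb_eq_zero_of_lt Q (Nat.lt_succ_self n)]; ring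

lemma gb_succ_succ' (Q : A) (n m : ℕ) (h : m ≤ n) :
    gb Q (n + 1) (m + 1) = Q ^ (n - m) * gb Q n m + gb Q n (m + 1) := by
  induction n generalizing m with
  | zero =>
    obtain rfl : m = 0 := by omega
    simp
  | succ n ih =>
    cases m with
    | zero =>
      rw [gb_succ_succ]
      have h1 := ih 0 (Nat.zero_le _)
      have h2 := gb_succ_succ Q n 0
      simp only [Nat.sub_zero, gb_zero_right, zero_add, pow_one, mul_one] at *
      rw [pow_succ]
      linear_combination Q * h1 - h2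
    | succ m =>
      by_cases hm : m = n
      · subst hm
        rw [gb_succ_succ, gb_eq_zero_of_lt Q (show m + 1 < m + 1 + 1 by omega)]
        simp
      · have h1 := ih m (by omega)
        have h2 := ih (m + 1) (by omega)
        have h3 := gb_succ_succ Q n m
        have h4 := gb_succ_succ Q n (m + 1)
        rw [gb_succ_succ]
        have e1 : n + 1 - (m + 1) = (n - (m + 1)) + 1 := by omega
        have e2 : n - m = (n - (m + 1)) + 1 := by omega
        rw [e1]
        rw [e2] at h1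
        rw [show m + 1 + 1 = m + 2 from rfl] at *
        linear_combination h1 + Q ^ (m + 2) * h2 - Q ^ (n - (m + 1) + 1) * h3 - h4

lemma gb_symm (Q : A) (n m : ℕ) (h : m ≤ n) : gb Q n m = gb Q n (n - m) := by
  induction n generalizing m with
  | zero =>
    obtain rfl : m = 0 := by omega
    rfl
  | succ n ih =>
    cases m with
    | zero => simp
    | succ m =>
      by_cases hm : m = n
      · subst hm; simp
      · have e : n + 1 - (m + 1) = (n - (m + 1)) + 1 := by omega
        rw [e, gb_succ_succ, gb_succ_succ' Q n (n - (m + 1)) (by omega), ih m (by omega),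
          ih (m + 1) (by omega)]
        have e1 : n - (n - (m + 1)) = m + 1 := by omega
        have e2 : n - (m + 1) + 1 = n - m := by omega
        rw [e1, e2]
        ring

/-- `(Q;Q)_m` -/
def poch (Q : A) (m : ℕ) : A := ∏ i ∈ range m, (1 - Q ^ (i + 1))

/-- falling product -/
def fall (Q : A) (n m : ℕ) : A := ∏ i ∈ range m, (1 - Q ^ (n - i))

lemma fall_eq_zero (Q : A) {n m : ℕ} (h : n < m) : fall Q n m = 0 := by
  unfold fall
  apply prod_eq_zero (mem_range.mpr h)
  simp

lemma fall_succ_succ (Q : A) (n m : ℕ) : fall Q (n + 1) (m + 1) = (1 - Q ^ (n + 1)) * fall Q n m := by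
  unfold fall
  rw [prod_range_succ']
  rw [mul_comm]
  congr 1
  apply prod_congr rfl
  intro i _
  rw [Nat.succ_sub_succ_eq_sub]

lemma gb_mul_poch (Q : A) (n m : ℕ) : gb Q n m * poch Q m = fall Q n m := by
  induction n generalizing m with
  | zero =>
    cases m with
    | zero => simp [poch, fall]
    | succ m => rw [fall_eq_zero Q (Nat.succ_pos m)]; simp
  | succ n ih =>
    cases m with
    | zero => simp [poch, fall]
    | succ m =>
      rw [gb_succ_succ, fall_succ_succ]
      have h1 := ih m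
      have h2 := ih (m + 1)
      have h3 : fall Q n (m + 1) = fall Q n m * (1 - Q ^ (n - m)) := by
        unfold fall; rw [prod_range_succ]
      have h4 : poch Q (m + 1) = poch Q m * (1 - Q ^ (m + 1)) := by
        unfold poch; rw [prod_range_succ]
      by_cases hmn : m ≤ n
      · have h5 : Q ^ (m + 1) * Q ^ (n - m) = Q ^ (n + 1) := by
          rw [← pow_add]; congr 1; omega
        rw [add_mul, mul_assoc (Q ^ (m + 1)), h2, h3, h4]
        linear_combination (1 - Q ^ (m + 1)) * h1 - fall Q n m * h5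
      · rw [gb_eq_zero_of_lt Q (show n < m by omega), gb_eq_zero_of_lt Q (show n < m + 1 by omega),
          fall_eq_zero Q (show n < m by omega)]
        ring

lemma dvd_prod_sub_one (Q : A) (c : ℕ) (s : Finset ℕ) (e : ℕ → ℕ) (h : ∀ i ∈ s, c ≤ e i) :
    Q ^ c ∣ ∏ i ∈ s, (1 - Q ^ (e i)) - 1 := by
  classical
  induction s using Finset.induction_on with
  | empty => simp
  | insert a s ha ih =>
    rw [prod_insert ha]
    have h1 := ih (fun i hi => h i (mem_insert_of_mem hi))
    have h2 : Q ^ c ∣ Q ^ (e a) := pow_dvd_pow _ (h a (mem_insert_self _ _))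
    have : (1 - Q ^ e a) * ∏ i ∈ s, (1 - Q ^ e i) - 1
        = (∏ i ∈ s, (1 - Q ^ e i) - 1) - Q ^ (e a) * ∏ i ∈ s, (1 - Q ^ e i) := by ring
    rw [this]
    exact dvd_sub h1 (Dvd.dvd.mul_right h2 _)

/-- `(Q;Q)_N [2N, N-k] ≡ 1` modulo `Q^(N-k+1)` -/
lemma dvd_poch_mul_gb_sub_one (Q : A) (N k : ℕ) (hk : k ≤ N) :
    Q ^ (N - k + 1) ∣ poch Q N * gb Q (2 * N) (N - k) - 1 := by
  have h1 : poch Q N = poch Q (N - k) * ∏ i ∈ Finset.Ico (N - k) N, (1 - Q ^ (i + 1)) := by
    unfold poch
    rw [range_eq_Ico, range_eq_Ico]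
    rw [prod_Ico_consecutive _ (Nat.zero_le _) (by omega)]
  have h2 := gb_mul_poch Q (2 * N) (N - k)
  have h3 : poch Q N * gb Q (2 * N) (N - k)
      = fall Q (2 * N) (N - k) * ∏ i ∈ Finset.Ico (N - k) N, (1 - Q ^ (i + 1)) := by
    rw [h1, ← h2]; ring
  rw [h3]
  have h4 : Q ^ (N - k + 1) ∣ fall Q (2 * N) (N - k) - 1 := by
    unfold fall
    apply dvd_prod_sub_one Q _ _ (fun i => 2 * N - i)
    intro i hi
    rw [mem_range] at hi
    show N - k + 1 ≤ 2 * N - i
    omega
  have h5 : Q ^ (N - k + 1) ∣ ∏ i ∈ Finset.Ico (N - k) N, (1 - Q ^ (i + 1)) - 1 := by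
    apply dvd_prod_sub_one Q _ _ (fun i => i + 1)
    intro i hi
    rw [mem_Ico] at hi
    show N - k + 1 ≤ i + 1
    omega
  have : fall Q (2 * N) (N - k) * ∏ i ∈ Finset.Ico (N - k) N, (1 - Q ^ (i + 1)) - 1
      = (fall Q (2 * N) (N - k) - 1) * ∏ i ∈ Finset.Ico (N - k) N, (1 - Q ^ (i + 1))
        + (∏ i ∈ Finset.Ico (N - k) N, (1 - Q ^ (i + 1)) - 1) := by ring
  rw [this]
  exact dvd_add (Dvd.dvd.mul_right h4 _) h5

/-- triangular numbers `k(k+1)/2` for integer `k` -/
def tri (k : ℤ) : ℕ := (k * (k + 1) / 2).toNat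

lemma two_mul_tri (k : ℤ) : 2 * (tri k : ℤ) = k * (k + 1) := by
  unfold tri
  have h1 : (2 : ℤ) ∣ k * (k + 1) := (Int.even_mul_succ_self k).two_dvd
  obtain ⟨c, hc⟩ := h1
  have h2 : k * (k + 1) / 2 = c := by rw [hc]; simp
  have h3 : 0 ≤ c := by
    rcases le_or_gt 0 k with h | h
    · nlinarith
    · nlinarith
  rw [h2, Int.toNat_of_nonneg h3, hc]

lemma tri_eq_iff (k : ℤ) (n : ℕ) : tri k = n ↔ k * (k + 1) = 2 * n := by
  have := two_mul_tri k
  constructor
  · rintro rfl; linarith
  · intro h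
    have : (tri k : ℤ) = n := by linarith
    exact_mod_cast this

/-- the general term of the triple product series -/
def tt (a b : A) (k : ℤ) : A := a ^ tri k * b ^ tri (k - 1)

lemma tt_zero (a b : A) : tt a b 0 = 1 := by
  have h0 : tri 0 = 0 := by decide
  have h1 : tri (-1) = 0 := by decide
  simp [tt, h0, h1]

lemma tt_b (a b : A) (N : ℕ) (k : ℤ) (j : ℕ) (hj : (j : ℤ) = N + k) :
    b * (a * b) ^ N * tt a b k = (a * b) ^ j * tt a b (k - 1) := by
  unfold tt
  have e1 := two_mul_tri k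
  have e2 := two_mul_tri (k - 1)
  have e3 := two_mul_tri (k - 1 - 1)
  have h1 : N + tri k = j + tri (k - 1) := by
    have : (N : ℤ) + tri k = j + tri (k - 1) := by rw [hj]; linarith
    exact_mod_cast this
  have h2 : 1 + N + tri (k - 1) = j + tri (k - 1 - 1) := by
    have : (1 : ℤ) + N + tri (k - 1) = j + tri (k - 1 - 1) := by rw [hj]; linarith
    exact_mod_cast this
  calc b * (a * b) ^ N * (a ^ tri k * b ^ tri (k - 1))
      = a ^ (N + tri k) * b ^ (1 + N + tri (k - 1)) := by rw [mul_pow]; ring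
    _ = a ^ (j + tri (k - 1)) * b ^ (j + tri (k - 1 - 1)) := by rw [h1, h2]
    _ = _ := by rw [mul_pow]; ring

lemma tt_a (a b : A) (M : ℕ) (k : ℤ) (j : ℕ) (hj : (j : ℤ) = M - k) :
    a * (a * b) ^ M * tt a b k = (a * b) ^ j * tt a b (k + 1) := by
  unfold tt
  have e1 := two_mul_tri k
  have e2 := two_mul_tri (k - 1)
  have e3 := two_mul_tri (k + 1)
  have e4 : k + 1 - 1 = k := by ring
  rw [e4]
  have h1 : 1 + M + tri k = j + tri (k + 1) := by
    have : (1 : ℤ) + M + tri k = j + tri (k + 1) := by rw [hj]; linarith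
    exact_mod_cast this
  have h2 : M + tri (k - 1) = j + tri k := by
    have : (M : ℤ) + tri (k - 1) = j + tri k := by rw [hj]; linarith
    exact_mod_cast this
  calc a * (a * b) ^ M * (a ^ tri k * b ^ tri (k - 1))
      = a ^ (1 + M + tri k) * b ^ (M + tri (k - 1)) := by rw [mul_pow]; ring
    _ = a ^ (j + tri (k + 1)) * b ^ (j + tri k) := by rw [h1, h2]
    _ = _ := by rw [mul_pow]; ring

/-- one step for finite sums with Pascal weights -/
lemma sum_step1 (Q : A) (n : ℕ) (s : ℕ → A) :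
    ∑ i ∈ range (n + 2), gb Q (n + 1) i * s i
      = ∑ j ∈ range (n + 1), gb Q n j * s (j + 1) + ∑ j ∈ range (n + 1), gb Q n j * (Q ^ j * s j) := by
  rw [sum_range_succ' _ (n + 1)]
  have h1 : ∑ j ∈ range (n + 1), gb Q n j * (Q ^ j * s j)
      = ∑ j ∈ range (n + 2), gb Q n j * (Q ^ j * s j) := by
    rw [sum_range_succ _ (n + 1), gb_eq_zero_of_lt Q (Nat.lt_succ_self n)]; ring
  rw [h1, sum_range_succ' _ (n + 1)]
  simp only [gb_succ_succ, gb_zero_right, pow_zero, one_mul]
  rw [← add_assoc, ← sum_add_distrib]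
  congr 1
  apply sum_congr rfl
  intro i _
  ring

lemma sum_step2 (Q : A) (n : ℕ) (s : ℕ → A) :
    ∑ i ∈ range (n + 2), gb Q (n + 1) i * s i
      = ∑ j ∈ range (n + 1), gb Q n j * s j + ∑ j ∈ range (n + 1), gb Q n j * (Q ^ (n - j) * s (j + 1)) := by
  rw [sum_range_succ' _ (n + 1)]
  have h1 : ∑ j ∈ range (n + 1), gb Q n j * s j
      = ∑ j ∈ range (n + 2), gb Q n j * s j := by
    rw [sum_range_succ _ (n + 1), gb_eq_zero_of_lt Q (Nat.lt_succ_self n)]; ring
  rw [h1, sum_range_succ' _ (n + 1)]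
  simp only [gb_zero_right, one_mul]
  rw [add_right_comm, ← sum_add_distrib]
  congr 1
  apply sum_congr rfl
  intro i hi
  rw [mem_range] at hi
  rw [gb_succ_succ' Q n i (by omega)]
  ring

/-- finite triple product -/
lemma finite_jtp (a b : A) (M N : ℕ) :
    (∏ i ∈ range M, (1 + a * (a * b) ^ i)) * ∏ i ∈ range N, (1 + b * (a * b) ^ i)
      = ∑ j ∈ range (M + N + 1), gb (a * b) (M + N) j * tt a b ((j : ℤ) - N) := by
  induction N with
  | zero =>
    induction M with
    | zero => simp [tt_zero]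
    | succ M ih =>
      simp only [range_zero, prod_empty, mul_one, add_zero, Nat.cast_zero, sub_zero] at ih ⊢
      rw [prod_range_succ, ih, sum_step2]
      rw [mul_add, mul_one, sum_mul]
      congr 1
      apply sum_congr rfl
      intro j hj
      rw [mem_range] at hj
      have := tt_a a b M (j : ℤ) (M - j) (by push_cast [Nat.cast_sub (show j ≤ M by omega)]; ring)
      rw [mul_assoc, show tt a b (j : ℤ) * (a * (a * b) ^ M) = a * (a * b) ^ M * tt a b (j : ℤ) by ring, this]
      push_cast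
      ring
  | succ N ih =>
    rw [prod_range_succ, ← mul_assoc, ih, show M + (N + 1) + 1 = M + N + 2 from rfl,
      show M + (N + 1) = M + N + 1 from rfl, sum_step1]
    rw [mul_add, mul_one, sum_mul]
    congr 1
    · apply sum_congr rfl
      intro j _
      congr 2
      push_cast; ring
    · apply sum_congr rfl
      intro j _
      have := tt_b a b N ((j : ℤ) - N) j (by ring)
      rw [mul_assoc, show tt a b ((j : ℤ) - N) * (b * (a * b) ^ N) = b * (a * b) ^ N * tt a b ((j : ℤ) - N) by ring, this]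
      congr 3
      push_cast; ring

lemma dvd_tt (a b : A) (k : ℤ) : (a * b) ^ (k.natAbs * (k.natAbs - 1) / 2) ∣ tt a b k := by
  unfold tt
  have e1 := two_mul_tri k
  have e2 := two_mul_tri (k - 1)
  set m := k.natAbs with hm
  have hmk : (m : ℤ) * m = k * k := by
    rw [hm]; exact Int.natAbs_mul_self' k
  have hle : m * (m - 1) / 2 ≤ tri k ∧ m * (m - 1) / 2 ≤ tri (k - 1) := by
    have h3 : 2 * (m * (m - 1) / 2) = m * (m - 1) := by
      apply Nat.mul_div_cancel'
      exact (Nat.even_mul_pred_self m).two_dvd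
    have h4 : ((m * (m - 1) : ℕ) : ℤ) = m * m - m := by
      cases m with
      | zero => simp
      | succ m => push_cast [Nat.succ_sub_one]; ring
    have habs1 : k ≤ m := by rw [hm]; exact Int.le_natAbs
    have habs2 : -k ≤ m := by rw [hm]; have := @Int.le_natAbs (-k); rwa [Int.natAbs_neg] at this
    constructor
    · have : (2 : ℤ) * ((m * (m - 1) / 2 : ℕ) : ℤ) ≤ 2 * (tri k : ℤ) := by
        rw [e1]
        have h5 : (2 : ℤ) * ((m * (m - 1) / 2 : ℕ) : ℤ) = ((m * (m - 1) : ℕ) : ℤ) := by exact_mod_cast h3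
        rw [h5, h4]; nlinarith
      have h6 : ((m * (m - 1) / 2 : ℕ) : ℤ) ≤ (tri k : ℤ) := by linarith
      exact_mod_cast h6
    · have : (2 : ℤ) * ((m * (m - 1) / 2 : ℕ) : ℤ) ≤ 2 * (tri (k - 1) : ℤ) := by
        rw [e2]
        have h5 : (2 : ℤ) * ((m * (m - 1) / 2 : ℕ) : ℤ) = ((m * (m - 1) : ℕ) : ℤ) := by exact_mod_cast h3
        rw [h5, h4]; nlinarith
      have h6 : ((m * (m - 1) / 2 : ℕ) : ℤ) ≤ (tri (k - 1) : ℤ) := by linarith
      exact_mod_cast h6
  rw [mul_pow]
  exact mul_dvd_mul (pow_dvd_pow _ hle.1) (pow_dvd_pow _ hle.2)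

/-- The Jacobi triple product, as a congruence modulo powers of `Q = ab`. -/
theorem jtp_dvd (a b : A) (N : ℕ) :
    (a * b) ^ N ∣ (∏ i ∈ range N, (1 - (a * b) ^ (i + 1))) *
      ((∏ i ∈ range N, (1 + a * (a * b) ^ i)) * ∏ i ∈ range N, (1 + b * (a * b) ^ i))
        - ∑ j ∈ range (2 * N + 1), tt a b ((j : ℤ) - N) := by
  rw [finite_jtp, show N + N = 2 * N by ring, mul_sum, ← sum_sub_distrib]
  apply dvd_sum
  intro j hj
  rw [mem_range] at hj
  have e : (∏ i ∈ range N, (1 - (a * b) ^ (i + 1))) * (gb (a * b) (2 * N) j * tt a b ((j : ℤ) - N))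
      - tt a b ((j : ℤ) - N)
      = (poch (a * b) N * gb (a * b) (2 * N) j - 1) * tt a b ((j : ℤ) - N) := by
    unfold poch; ring
  rw [e]
  set k := ((j : ℤ) - N).natAbs with hk
  have hkN : k ≤ N := by omega
  have h1 : (a * b) ^ (N - k + 1) ∣ poch (a * b) N * gb (a * b) (2 * N) j - 1 := by
    rcases le_or_gt j N with h | h
    · have : j = N - k := by omega
      rw [this]
      exact dvd_poch_mul_gb_sub_one _ _ _ hkN
    · have : gb (a * b) (2 * N) j = gb (a * b) (2 * N) (N - k) := by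
        rw [gb_symm _ _ _ (show j ≤ 2 * N by omega)]
        congr 1
        omega
      rw [this]
      exact dvd_poch_mul_gb_sub_one _ _ _ hkN
  have h2 := dvd_tt a b ((j : ℤ) - N)
  rw [← hk] at h2
  have h3 := mul_dvd_mul h1 h2
  rw [← pow_add] at h3
  refine dvd_trans (pow_dvd_pow _ ?_) h3
  have h4 : k - 1 ≤ k * (k - 1) / 2 := by
    rcases k with _ | _ | k
    · simp
    · simp
    · rw [Nat.le_div_iff_mul_le (by norm_num)]
      simp only [Nat.add_sub_cancel]
      nlinarith
  omega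

end Pool.Agent.Helper69.QS
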