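import Pool.Agent.Helper69.QS.Cube

set_option autoImplicit false

/-!
# Lattice sum identities
-/

namespace Pool.Agent.Helper69.QS

open PowerSeries Filter Finset
open scoped PowerSeries.WithPiTopology Topology

/-- squares -/
def sq (k : ℤ) : ℕ := k.natAbs ^ 2

lemma sq_cast (k : ℤ) : (sq k : ℤ) = k ^ 2 := by
  unfold sq; push_cast; exact sq_abs k

lemma tri_add_tri (k : ℤ) : tri k + tri (k - 1) = sq k := by
  have e1 := two_mul_tri k
  have e2 := two_mul_tri (k - 1)
  have e3 := sq_cast k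
  have : ((tri k + tri (k - 1) : ℕ) : ℤ) = sq k := by push_cast; linarith
  exact_mod_cast this

lemma FF_sq : FF sq := by
  apply FF.of_bound 0
  intro k
  rw [← tri_add_tri]
  exact natAbs_le_tri k

/-- `φ(-q)` -/
noncomputable def phi : ℤ⟦X⟧ := th sq sg

/-- `φ(q)` -/
noncomputable def phip : ℤ⟦X⟧ := th sq (fun _ => 1)

lemma hasSum_phi : HasSum (fun k : ℤ => (monomial (sq k) (sg k) : ℤ⟦X⟧)) phi := hasSum_th _ FF_sq

lemma hasSum_phip : HasSum (fun k : ℤ => (monomial (sq k) 1 : ℤ⟦X⟧)) phip := hasSum_th _ FF_sq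

lemma phi_eq : phi = V 2 E * (Oo * Oo) := by
  have h := tm_eq 1 1 2 one_pos one_pos rfl
  have h2 : phi = tm 1 1 := by
    apply hasSum_phi.unique
    refine (hasSum_tm 1 1 one_pos one_pos).congr_fun ?_
    intro k
    rw [one_mul, one_mul, tri_add_tri]
  rw [h2, h]; rfl

lemma phip_eq : phip = V 2 E * (Fo * Fo) := by
  have h := tp_eq 1 1 2 one_pos one_pos rfl
  have h2 : phip = tp 1 1 := by
    apply hasSum_phip.unique
    refine (hasSum_tp 1 1 one_pos one_pos).congr_fun ?_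
    intro k
    rw [one_mul, one_mul, tri_add_tri]
  rw [h2, h]; rfl

lemma FF_pent : FF pentagonal := by
  apply FF.of_bound 1
  intro k
  have h := two_mul_natCast_pentagonal k
  have h1 : (k : ℤ) ≤ pentagonal k + 1 := by nlinarith [sq_nonneg (k - 1), sq_nonneg k]
  have h2 : -(k : ℤ) ≤ pentagonal k + 1 := by nlinarith [sq_nonneg (k + 1), sq_nonneg k]
  omega

lemma hasSum_E : HasSum (fun k : ℤ => (monomial (pentagonal k) (sg k) : ℤ⟦X⟧)) E := by
  refine (WithPiTopology.hasSum_pentagonalSeries ℤ).congr_fun ?_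
  intro k
  rw [monomial_eq_C_mul_X_pow]
  congr 1
  unfold sg
  simp

lemma hasSum_VE2 : HasSum (fun j : ℤ => (monomial (2 * pentagonal (-j)) (sg j) : ℤ⟦X⟧)) (V 2 E) := by
  have h := hasSum_V 2 hasSum_E
  simp only [V_monomial] at h
  have := (Equiv.neg ℤ).hasSum_iff (f := fun k : ℤ => (monomial (2 * pentagonal k) (sg k) : ℤ⟦X⟧)) (a := V 2 E)
  refine (this.mpr h).congr_fun ?_
  intro j
  simp only [Function.comp_apply, Equiv.neg_apply, sg_neg]

lemma five_dvd_mul {a b : ℤ} (h : (5 : ℤ) ∣ a * b) : (5 : ℤ) ∣ a ∨ (5 : ℤ) ∣ b :=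
  (Int.prime_iff_natAbs_prime.mpr (by norm_num : Nat.Prime (Int.natAbs 5))).dvd_or_dvd h

lemma sg_odd_mul (a : ℤ) : sg (5 * a) = sg a := by
  apply sg_eq_of_even_sub
  exact ⟨2 * a, by ring⟩

/-! ### the action of `U 5 1` on `E * phi` -/

lemma U_theta : U 5 1 (E * phi) = V 5 (E * phi) - 2 * (V 2 E * Psi2) := by
  set f : ℤ × ℤ → ℤ⟦X⟧ := fun p => U 5 1 (monomial (pentagonal p.1 + sq p.2) (sg p.1 * sg p.2)) with hf
  have h0 : HasSum f (U 5 1 (E * phi)) := hasSum_U 5 1 (hasSum_mul FF_pent FF_sq hasSum_E hasSum_phi)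
  set g1 : ℤ × ℤ → ℤ × ℤ := fun p => (2 * p.1 + p.2 + 1, 3 * p.1 - p.2) with hg1
  set g2 : ℤ × ℤ → ℤ × ℤ := fun p => (2 * p.1 + p.2 + 1, -(3 * p.1 - p.2)) with hg2
  set g3 : ℤ × ℤ → ℤ × ℤ := fun p => (1 - 5 * p.1, 5 * p.2) with hg3
  have i1 : Function.Injective g1 := by
    rintro ⟨a, b⟩ ⟨c, d⟩ h
    simp only [hg1, Prod.mk.injEq] at h
    ext <;> simp only <;> omega
  have i2 : Function.Injective g2 := by
    rintro ⟨a, b⟩ ⟨c, d⟩ h
    simp only [hg2, Prod.mk.injEq] at h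
    ext <;> simp only <;> omega
  have i3 : Function.Injective g3 := by
    rintro ⟨a, b⟩ ⟨c, d⟩ h
    simp only [hg3, Prod.mk.injEq] at h
    ext <;> simp only <;> omega
  have m1 : ∀ k m : ℤ, (k, m) ∈ Set.range g1 ↔ (5 : ℤ) ∣ k + m - 1 := by
    intro k m
    constructor
    · rintro ⟨⟨a, b⟩, h⟩
      simp only [hg1, Prod.mk.injEq] at h
      exact ⟨a, by omega⟩
    · rintro ⟨c, hc⟩
      refine ⟨(c, 3 * c - m), ?_⟩
      simp only [hg1, Prod.mk.injEq]
      constructor <;> omega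
  have m2 : ∀ k m : ℤ, (k, m) ∈ Set.range g2 ↔ (5 : ℤ) ∣ k - m - 1 := by
    intro k m
    constructor
    · rintro ⟨⟨a, b⟩, h⟩
      simp only [hg2, Prod.mk.injEq] at h
      exact ⟨a, by omega⟩
    · rintro ⟨c, hc⟩
      refine ⟨(c, 3 * c + m), ?_⟩
      simp only [hg2, Prod.mk.injEq]
      constructor <;> omega
  have m3 : ∀ k m : ℤ, (k, m) ∈ Set.range g3 ↔ (5 : ℤ) ∣ k + m - 1 ∧ (5 : ℤ) ∣ k - m - 1 := by
    intro k m
    constructor
    · rintro ⟨⟨a, b⟩, h⟩
      simp only [hg3, Prod.mk.injEq] at h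
      exact ⟨⟨b - a, by omega⟩, ⟨-a - b, by omega⟩⟩
    · rintro ⟨⟨c, hc⟩, ⟨d, hd⟩⟩
      refine ⟨((1 - k) / 5, m / 5), ?_⟩
      simp only [hg3, Prod.mk.injEq]
      constructor <;> omega
  have v1 : ∀ p : ℤ × ℤ, f (g1 p) = -(monomial (2 * pentagonal (-p.1) + tri p.2) (sg p.1 * 1)) := by
    rintro ⟨j, l⟩
    simp only [hf, hg1]
    rw [U_monomial 5 1 _ _ (2 * pentagonal (-j) + tri l) (by norm_num), ← map_neg]
    · congr 1
      rw [← sg_add, show 2 * j + l + 1 + (3 * j - l) = 5 * j + 1 by ring, sg_add, sg_odd_mul, sg_one]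
      ring
    · have e1 := two_mul_natCast_pentagonal (2 * j + l + 1)
      have e2 := sq_cast (3 * j - l)
      have e3 := two_mul_natCast_pentagonal (-j)
      have e4 := two_mul_tri l
      have : ((pentagonal (2 * j + l + 1) + sq (3 * j - l) : ℕ) : ℤ) = ((5 * (2 * pentagonal (-j) + tri l) + 1 : ℕ) : ℤ) := by
        push_cast
        nlinarith
      exact_mod_cast this
  have v2 : ∀ p : ℤ × ℤ, f (g2 p) = -(monomial (2 * pentagonal (-p.1) + tri p.2) (sg p.1 * 1)) := by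
    rintro ⟨j, l⟩
    rw [← v1 (j, l)]
    simp only [hf, hg1, hg2]
    have : sq (-(3 * j - l)) = sq (3 * j - l) := by unfold sq; rw [Int.natAbs_neg]
    rw [this, sg_neg]
  have v3 : ∀ p : ℤ × ℤ, f (g3 p) = -(V 5 (monomial (pentagonal p.1 + sq p.2) (sg p.1 * sg p.2))) := by
    rintro ⟨j, l⟩
    simp only [hf, hg3]
    rw [V_monomial, U_monomial 5 1 _ _ (5 * (pentagonal j + sq l)) (by norm_num), ← map_neg]
    · congr 1
      rw [sg_odd_mul, show (1 : ℤ) - 5 * j = 1 + -(5 * j) by ring, sg_add, sg_neg, sg_odd_mul, sg_one]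
      ring
    · have e1 := two_mul_natCast_pentagonal (1 - 5 * j)
      have e2 := sq_cast (5 * l)
      have e3 := two_mul_natCast_pentagonal j
      have e4 := sq_cast l
      have : ((pentagonal (1 - 5 * j) + sq (5 * l) : ℕ) : ℤ) = ((5 * (5 * (pentagonal j + sq l)) + 1 : ℕ) : ℤ) := by
        push_cast
        nlinarith
      exact_mod_cast this
  have hp : HasSum (fun p : ℤ × ℤ => (monomial (2 * pentagonal (-p.1) + tri p.2) (sg p.1 * 1) : ℤ⟦X⟧)) (V 2 E * Psi2) := by
    refine hasSum_mul (e := fun j : ℤ => 2 * pentagonal (-j)) (g := sg) (g' := fun _ => 1) ?_ FF_tri hasSum_VE2 hasSum_Psi2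
    apply FF.of_bound 1
    intro k
    have h := two_mul_natCast_pentagonal (-k)
    have h1 : (k : ℤ) ≤ 2 * pentagonal (-k) + 1 := by nlinarith [sq_nonneg (k - 1), sq_nonneg k]
    have h2 : -(k : ℤ) ≤ 2 * pentagonal (-k) + 1 := by nlinarith [sq_nonneg (k + 1), sq_nonneg k]
    omega
  have s1 := hasSum_indicator_of_param (f := f) i1 (hp.neg.congr_fun v1)
  have s2 := hasSum_indicator_of_param (f := f) i2 (hp.neg.congr_fun v2)
  have s3 := hasSum_indicator_of_param (f := f) i3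
    ((hasSum_V 5 (hasSum_mul FF_pent FF_sq hasSum_E hasSum_phi)).neg.congr_fun v3)
  have s := (s1.add s2).sub s3
  have hfun : ∀ p : ℤ × ℤ, f p = (Set.range g1).indicator f p + (Set.range g2).indicator f p
      - (Set.range g3).indicator f p := by
    rintro ⟨k, m⟩
    by_cases h1 : (5 : ℤ) ∣ k + m - 1
    · rw [Set.indicator_of_mem ((m1 k m).mpr h1)]
      by_cases h2 : (5 : ℤ) ∣ k - m - 1
      · rw [Set.indicator_of_mem ((m2 k m).mpr h2), Set.indicator_of_mem ((m3 k m).mpr ⟨h1, h2⟩)]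
        ring
      · rw [Set.indicator_of_notMem (fun h => h2 ((m2 k m).mp h)),
          Set.indicator_of_notMem (fun h => h2 ((m3 k m).mp h).2)]
        ring
    · rw [Set.indicator_of_notMem (fun h => h1 ((m1 k m).mp h)),
        Set.indicator_of_notMem (fun h => h1 ((m3 k m).mp h).1)]
      by_cases h2 : (5 : ℤ) ∣ k - m - 1
      · rw [Set.indicator_of_mem ((m2 k m).mpr h2)]
        ring
      · rw [Set.indicator_of_notMem (fun h => h2 ((m2 k m).mp h))]
        simp only [hf]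
        rw [U_monomial_zero]
        · ring
        · intro n hn
          have e1 := two_mul_natCast_pentagonal k
          have e2 := sq_cast m
          have e3 : ((5 * n + 1 : ℕ) : ℤ) = ((pentagonal k + sq m : ℕ) : ℤ) := by exact_mod_cast hn
          push_cast at e3
          have e4 : (5 : ℤ) ∣ (k + m - 1) * (k - m - 1) := by
            refine ⟨4 * n + 1 - k * k - m * m, ?_⟩
            nlinarith
          rcases five_dvd_mul e4 with h | h
          · exact h1 h
          · exact h2 h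
  have := h0.unique (s.congr_fun hfun)
  rw [this]
  ring

end Pool.Agent.Helper69.QS
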