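import Pool.Agent.Helper69.QS.Lattice

set_option autoImplicit false

/-!
# Further lattice sum identities
-/

namespace Pool.Agent.Helper69.QS

open PowerSeries Filter Finset
open scoped PowerSeries.WithPiTopology Topology

lemma five_dvd_sq_iff {m n : ℤ} (h : (5 : ℤ) ∣ m ^ 2 + n ^ 2) : (5 : ℤ) ∣ m - 2 * n ∨ (5 : ℤ) ∣ m + 2 * n := by
  obtain ⟨c, hc⟩ := h
  apply five_dvd_mul
  exact ⟨c - n ^ 2, by nlinarith⟩

/-- `U 5 0 (φ²) = 2 φ² - φ(q^5)²` -/
lemma U_phi_sq : U 5 0 (phi * phi) = 2 * (phi * phi) - V 5 (phi * phi) := by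
  set f : ℤ × ℤ → ℤ⟦X⟧ := fun p => U 5 0 (monomial (sq p.1 + sq p.2) (sg p.1 * sg p.2)) with hf
  have h0 : HasSum f (U 5 0 (phi * phi)) := hasSum_U 5 0 (hasSum_mul FF_sq FF_sq hasSum_phi hasSum_phi)
  have hpp := hasSum_mul FF_sq FF_sq hasSum_phi hasSum_phi
  set g1 : ℤ × ℤ → ℤ × ℤ := fun p => (2 * p.1 - p.2, p.1 + 2 * p.2) with hg1
  set g2 : ℤ × ℤ → ℤ × ℤ := fun p => (-(2 * p.1 - p.2), p.1 + 2 * p.2) with hg2
  set g3 : ℤ × ℤ → ℤ × ℤ := fun p => (5 * p.1, 5 * p.2) with hg3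
  have i1 : Function.Injective g1 := by
    rintro ⟨a, b⟩ ⟨c, d⟩ h
    simp only [hg1, Prod.mk.injEq] at h
    ext <;> simp only <;> omega
  have i2 : Function.Injective g2 := by
    rintro ⟨a, b⟩ ⟨c, d⟩ h
    simp only [hg2, Prod.mk.injEq] at h
    ext <;> simp only <;> omega
  have i3 : Function.Injective g3 := by
    rintro ⟨a, b⟩ ⟨c, d⟩ h
    simp only [hg3, Prod.mk.injEq] at h
    ext <;> simp only <;> omega
  have m1 : ∀ m n : ℤ, (m, n) ∈ Set.range g1 ↔ (5 : ℤ) ∣ m - 2 * n := by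
    intro m n
    constructor
    · rintro ⟨⟨a, b⟩, h⟩
      simp only [hg1, Prod.mk.injEq] at h
      exact ⟨-b, by omega⟩
    · rintro ⟨c, hc⟩
      refine ⟨(n + 2 * c, -c), ?_⟩
      simp only [hg1, Prod.mk.injEq]
      constructor <;> omega
  have m2 : ∀ m n : ℤ, (m, n) ∈ Set.range g2 ↔ (5 : ℤ) ∣ m + 2 * n := by
    intro m n
    constructor
    · rintro ⟨⟨a, b⟩, h⟩
      simp only [hg2, Prod.mk.injEq] at h
      exact ⟨b, by omega⟩
    · rintro ⟨c, hc⟩
      refine ⟨(n - 2 * c, c), ?_⟩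
      simp only [hg2, Prod.mk.injEq]
      constructor <;> omega
  have m3 : ∀ m n : ℤ, (m, n) ∈ Set.range g3 ↔ (5 : ℤ) ∣ m - 2 * n ∧ (5 : ℤ) ∣ m + 2 * n := by
    intro m n
    constructor
    · rintro ⟨⟨a, b⟩, h⟩
      simp only [hg3, Prod.mk.injEq] at h
      exact ⟨⟨a - 2 * b, by omega⟩, ⟨a + 2 * b, by omega⟩⟩
    · rintro ⟨⟨c, hc⟩, ⟨d, hd⟩⟩
      refine ⟨(m / 5, n / 5), ?_⟩
      simp only [hg3, Prod.mk.injEq]
      constructor <;> omega
  have v1 : ∀ p : ℤ × ℤ, f (g1 p) = monomial (sq p.1 + sq p.2) (sg p.1 * sg p.2) := by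
    rintro ⟨j, l⟩
    simp only [hf, hg1]
    rw [U_monomial 5 0 _ _ (sq j + sq l) (by norm_num)]
    · congr 1
      rw [← sg_add, ← sg_add]
      apply sg_eq_of_even_sub
      exact ⟨j, by ring⟩
    · have e1 := sq_cast (2 * j - l)
      have e2 := sq_cast (j + 2 * l)
      have e3 := sq_cast j
      have e4 := sq_cast l
      have : ((sq (2 * j - l) + sq (j + 2 * l) : ℕ) : ℤ) = ((5 * (sq j + sq l) + 0 : ℕ) : ℤ) := by
        push_cast
        nlinarith
      exact_mod_cast this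
  have v2 : ∀ p : ℤ × ℤ, f (g2 p) = monomial (sq p.1 + sq p.2) (sg p.1 * sg p.2) := by
    rintro ⟨j, l⟩
    rw [← v1 (j, l)]
    simp only [hf, hg1, hg2]
    have : sq (-(2 * j - l)) = sq (2 * j - l) := by unfold sq; rw [Int.natAbs_neg]
    rw [this, sg_neg]
  have v3 : ∀ p : ℤ × ℤ, f (g3 p) = V 5 (monomial (sq p.1 + sq p.2) (sg p.1 * sg p.2)) := by
    rintro ⟨j, l⟩
    simp only [hf, hg3]
    rw [V_monomial, U_monomial 5 0 _ _ (5 * (sq j + sq l)) (by norm_num)]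
    · congr 1
      rw [sg_odd_mul, sg_odd_mul]
    · have e1 := sq_cast (5 * j)
      have e2 := sq_cast (5 * l)
      have e3 := sq_cast j
      have e4 := sq_cast l
      have : ((sq (5 * j) + sq (5 * l) : ℕ) : ℤ) = ((5 * (5 * (sq j + sq l)) + 0 : ℕ) : ℤ) := by
        push_cast
        nlinarith
      exact_mod_cast this
  have s1 := hasSum_indicator_of_param (f := f) i1 (hpp.congr_fun v1)
  have s2 := hasSum_indicator_of_param (f := f) i2 (hpp.congr_fun v2)
  have s3 := hasSum_indicator_of_param (f := f) i3 ((hasSum_V 5 hpp).congr_fun v3)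
  have s := (s1.add s2).sub s3
  have hfun : ∀ p : ℤ × ℤ, f p = (Set.range g1).indicator f p + (Set.range g2).indicator f p
      - (Set.range g3).indicator f p := by
    rintro ⟨k, m⟩
    by_cases h1 : (5 : ℤ) ∣ k - 2 * m
    · rw [Set.indicator_of_mem ((m1 k m).mpr h1)]
      by_cases h2 : (5 : ℤ) ∣ k + 2 * m
      · rw [Set.indicator_of_mem ((m2 k m).mpr h2), Set.indicator_of_mem ((m3 k m).mpr ⟨h1, h2⟩)]
        ring
      · rw [Set.indicator_of_notMem (fun h => h2 ((m2 k m).mp h)),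
          Set.indicator_of_notMem (fun h => h2 ((m3 k m).mp h).2)]
        ring
    · rw [Set.indicator_of_notMem (fun h => h1 ((m1 k m).mp h)),
        Set.indicator_of_notMem (fun h => h1 ((m3 k m).mp h).1)]
      by_cases h2 : (5 : ℤ) ∣ k + 2 * m
      · rw [Set.indicator_of_mem ((m2 k m).mpr h2)]
        ring
      · rw [Set.indicator_of_notMem (fun h => h2 ((m2 k m).mp h))]
        simp only [hf]
        rw [U_monomial_zero]
        · ring
        · intro n hn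
          have e1 := sq_cast k
          have e2 := sq_cast m
          have e3 : ((5 * n + 0 : ℕ) : ℤ) = ((sq k + sq m : ℕ) : ℤ) := by exact_mod_cast hn
          push_cast at e3
          have e4 : (5 : ℤ) ∣ k ^ 2 + m ^ 2 := ⟨n, by linarith⟩
          rcases five_dvd_sq_iff e4 with h | h
          · exact h1 h
          · exact h2 h
  have := h0.unique (s.congr_fun hfun)
  rw [this]
  ring

/-- decomposition of a function on `ℤ × ℤ` into five classes modulo `5` -/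
lemma five_classes {B : Type*} [AddCommMonoid B] (f : ℤ × ℤ → B) (R0 R1 R2 R3 R4 : Set (ℤ × ℤ))
    (l : ℤ × ℤ → ℤ)
    (h0 : ∀ p, p ∈ R0 ↔ (5 : ℤ) ∣ l p - 0) (h1 : ∀ p, p ∈ R1 ↔ (5 : ℤ) ∣ l p - 1)
    (h2 : ∀ p, p ∈ R2 ↔ (5 : ℤ) ∣ l p - 2) (h3 : ∀ p, p ∈ R3 ↔ (5 : ℤ) ∣ l p - 3)
    (h4 : ∀ p, p ∈ R4 ↔ (5 : ℤ) ∣ l p - 4) (p : ℤ × ℤ) :
    f p = R0.indicator f p + R1.indicator f p + R2.indicator f p + R3.indicator f p
      + R4.indicator f p := by
  classical
  rw [Set.indicator_apply, Set.indicator_apply, Set.indicator_apply, Set.indicator_apply,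
    Set.indicator_apply]
  simp only [h0, h1, h2, h3, h4]
  have h : (5 : ℤ) ∣ l p - 0 ∨ (5 : ℤ) ∣ l p - 1 ∨ (5 : ℤ) ∣ l p - 2 ∨ (5 : ℤ) ∣ l p - 3 ∨ (5 : ℤ) ∣ l p - 4 := by
    omega
  rcases h with h | h | h | h | h
  · rw [if_pos h, if_neg (by omega), if_neg (by omega), if_neg (by omega), if_neg (by omega)]
    simp
  · rw [if_pos h, if_neg (by omega), if_neg (by omega), if_neg (by omega), if_neg (by omega)]
    simp
  · rw [if_pos h, if_neg (by omega), if_neg (by omega), if_neg (by omega), if_neg (by omega)]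
    simp
  · rw [if_pos h, if_neg (by omega), if_neg (by omega), if_neg (by omega), if_neg (by omega)]
    simp
  · rw [if_pos h, if_neg (by omega), if_neg (by omega), if_neg (by omega), if_neg (by omega)]
    simp

lemma hasSum_five {f : ℤ × ℤ → ℤ⟦X⟧} {g0 g1 g2 g3 g4 : ℤ × ℤ → ℤ × ℤ} {A0 A1 T : ℤ⟦X⟧}
    (l : ℤ × ℤ → ℤ)
    (i0 : Function.Injective g0) (i1 : Function.Injective g1) (i2 : Function.Injective g2)
    (i3 : Function.Injective g3) (i4 : Function.Injective g4)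
    (h0 : ∀ p, p ∈ Set.range g0 ↔ (5 : ℤ) ∣ l p - 0) (h1 : ∀ p, p ∈ Set.range g1 ↔ (5 : ℤ) ∣ l p - 1)
    (h2 : ∀ p, p ∈ Set.range g2 ↔ (5 : ℤ) ∣ l p - 2) (h3 : ∀ p, p ∈ Set.range g3 ↔ (5 : ℤ) ∣ l p - 3)
    (h4 : ∀ p, p ∈ Set.range g4 ↔ (5 : ℤ) ∣ l p - 4)
    (a0 : HasSum (fun p => f (g0 p)) A0) (a1 : HasSum (fun p => f (g1 p)) A1)
    (a2 : HasSum (fun p => f (g2 p)) A1) (a3 : HasSum (fun p => f (g3 p)) A1)
    (a4 : HasSum (fun p => f (g4 p)) A1) (hT : HasSum f T) :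
    T = A0 + 4 * A1 := by
  have s0 := hasSum_indicator_of_param i0 a0
  have s1 := hasSum_indicator_of_param i1 a1
  have s2 := hasSum_indicator_of_param i2 a2
  have s3 := hasSum_indicator_of_param i3 a3
  have s4 := hasSum_indicator_of_param i4 a4
  have := (((s0.add s1).add s2).add s3).add s4
  rw [hT.unique (this.congr_fun (five_classes f _ _ _ _ _ l h0 h1 h2 h3 h4))]
  ring

/-- `φ(-q)² = φ(-q^5)² - 4 q f(-q,-q^9) f(-q^3,-q^7)` -/
lemma phi_sq_eq : phi * phi = V 5 (phi * phi) + 4 * (-(X * (tm 1 9 * tm 3 7))) := by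
  have hT := hasSum_mul FF_sq FF_sq hasSum_phi hasSum_phi
  have v0 : ∀ p : ℤ × ℤ, (monomial (sq (2 * p.1 - p.2) + sq (p.1 + 2 * p.2))
      (sg (2 * p.1 - p.2) * sg (p.1 + 2 * p.2)) : ℤ⟦X⟧) = V 5 (monomial (sq p.1 + sq p.2) (sg p.1 * sg p.2)) := by
    rintro ⟨j, l⟩
    simp only
    rw [V_monomial]
    have hs : sg (2 * j - l) * sg (j + 2 * l) = sg j * sg l := by
      rw [← sg_add, ← sg_add]
      apply sg_eq_of_even_sub
      exact ⟨j, by ring⟩
    have he : sq (2 * j - l) + sq (j + 2 * l) = 5 * (sq j + sq l) := by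
      have e1 := sq_cast (2 * j - l)
      have e2 := sq_cast (j + 2 * l)
      have e3 := sq_cast j
      have e4 := sq_cast l
      have : ((sq (2 * j - l) + sq (j + 2 * l) : ℕ) : ℤ) = ((5 * (sq j + sq l) : ℕ) : ℤ) := by
        push_cast
        nlinarith
      exact_mod_cast this
    rw [hs, he]
  have hb : HasSum (fun p : ℤ × ℤ => -(X * (monomial ((1 * tri p.1 + 9 * tri (p.1 - 1)) + (3 * tri p.2 + 7 * tri (p.2 - 1)))
      (sg p.1 * sg p.2) : ℤ⟦X⟧))) (-(X * (tm 1 9 * tm 3 7))) := by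
    have hb0 := hasSum_mul (e := fun k : ℤ => 1 * tri k + 9 * tri (k - 1)) (g := sg)
      (e' := fun k : ℤ => 3 * tri k + 7 * tri (k - 1)) (g' := sg)
      (FF_ij 1 9 (by norm_num) (by norm_num)) (FF_ij 3 7 (by norm_num) (by norm_num))
      (hasSum_tm 1 9 (by norm_num) (by norm_num)) (hasSum_tm 3 7 (by norm_num) (by norm_num))
    exact (hb0.mul_left X).neg
  have v1 : ∀ a b : ℤ, (monomial (sq (1 - 2 * a - b) + sq (-a + 2 * b)) (sg (1 - 2 * a - b) * sg (-a + 2 * b)) : ℤ⟦X⟧)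
      = -(X * (monomial ((1 * tri a + 9 * tri (a - 1)) + (3 * tri b + 7 * tri (b - 1))) (sg a * sg b) : ℤ⟦X⟧)) := by
    intro a b
    have hx : (X : ℤ⟦X⟧) = monomial 1 1 := rfl
    rw [hx, monomial_mul_monomial, ← map_neg]
    have hs : sg (1 - 2 * a - b) * sg (-a + 2 * b) = -(1 * (sg a * sg b)) := by
      rw [← sg_add, show 1 - 2 * a - b + (-a + 2 * b) = 1 + (-3 * a + b) by ring, sg_add, sg_one, ← sg_add]
      have : sg (-3 * a + b) = sg (a + b) := by
        apply sg_eq_of_even_sub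
        exact ⟨-2 * a, by ring⟩
      rw [this]; ring
    have he : sq (1 - 2 * a - b) + sq (-a + 2 * b) = 1 + ((1 * tri a + 9 * tri (a - 1)) + (3 * tri b + 7 * tri (b - 1))) := by
      have e1 := sq_cast (1 - 2 * a - b)
      have e2 := sq_cast (-a + 2 * b)
      have e3 := two_mul_tri a
      have e4 := two_mul_tri (a - 1)
      have e5 := two_mul_tri b
      have e6 := two_mul_tri (b - 1)
      have : ((sq (1 - 2 * a - b) + sq (-a + 2 * b) : ℕ) : ℤ)
          = ((1 + ((1 * tri a + 9 * tri (a - 1)) + (3 * tri b + 7 * tri (b - 1))) : ℕ) : ℤ) := by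
        push_cast
        nlinarith
      exact_mod_cast this
    rw [hs, he]
  have hsq : ∀ x : ℤ, sq (-x) = sq x := by intro x; unfold sq; rw [Int.natAbs_neg]
  have inj : ∀ g : ℤ × ℤ → ℤ × ℤ, (∀ a b c d : ℤ, g (a, b) = g (c, d) → a = c ∧ b = d) → Function.Injective g := by
    rintro g h ⟨a, b⟩ ⟨c, d⟩ hh
    obtain ⟨h1, h2⟩ := h a b c d hh
    rw [h1, h2]
  apply hasSum_five (g0 := fun p => (2 * p.1 - p.2, p.1 + 2 * p.2))
    (g1 := fun p => (1 - 2 * p.1 - p.2, -p.1 + 2 * p.2))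
    (g2 := fun p => (-p.1 + 2 * p.2, -(1 - 2 * p.1 - p.2)))
    (g3 := fun p => (-(-p.1 + 2 * p.2), (1 - 2 * p.1 - p.2)))
    (g4 := fun p => (-(1 - 2 * p.1 - p.2), -(-p.1 + 2 * p.2)))
    (fun p => p.1 - 2 * p.2) _ _ _ _ _ _ _ _ _ _ _ _ _ _ _ hT
  · apply inj; intro a b c d h; simp only [Prod.mk.injEq] at h; omega
  · apply inj; intro a b c d h; simp only [Prod.mk.injEq] at h; omega
  · apply inj; intro a b c d h; simp only [Prod.mk.injEq] at h; omega
  · apply inj; intro a b c d h; simp only [Prod.mk.injEq] at h; omega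
  · apply inj; intro a b c d h; simp only [Prod.mk.injEq] at h; omega
  · rintro ⟨m, n⟩
    constructor
    · rintro ⟨⟨a, b⟩, h⟩
      simp only [Prod.mk.injEq] at h
      simp only
      exact ⟨-b, by omega⟩
    · rintro ⟨c, hc⟩
      simp only at hc
      refine ⟨(n + 2 * c, -c), ?_⟩
      simp only [Prod.mk.injEq]
      constructor <;> omega
  · rintro ⟨m, n⟩
    constructor
    · rintro ⟨⟨a, b⟩, h⟩
      simp only [Prod.mk.injEq] at h
      simp only
      exact ⟨-b, by omega⟩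
    · rintro ⟨c, hc⟩
      simp only at hc
      refine ⟨(-n - 2 * c, -c), ?_⟩
      simp only [Prod.mk.injEq]
      constructor <;> omega
  · rintro ⟨m, n⟩
    constructor
    · rintro ⟨⟨a, b⟩, h⟩
      simp only [Prod.mk.injEq] at h
      simp only
      exact ⟨-a, by omega⟩
    · rintro ⟨c, hc⟩
      simp only at hc
      refine ⟨(-c, n + 2 * c + 1), ?_⟩
      simp only [Prod.mk.injEq]
      constructor <;> omega
  · rintro ⟨m, n⟩
    constructor
    · rintro ⟨⟨a, b⟩, h⟩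
      simp only [Prod.mk.injEq] at h
      simp only
      exact ⟨a - 1, by omega⟩
    · rintro ⟨c, hc⟩
      simp only at hc
      refine ⟨(c + 1, -n - 2 * c - 1), ?_⟩
      simp only [Prod.mk.injEq]
      constructor <;> omega
  · rintro ⟨m, n⟩
    constructor
    · rintro ⟨⟨a, b⟩, h⟩
      simp only [Prod.mk.injEq] at h
      simp only
      exact ⟨b - 1, by omega⟩
    · rintro ⟨c, hc⟩
      simp only at hc
      refine ⟨(n + 2 * c + 2, c + 1), ?_⟩
      simp only [Prod.mk.injEq]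
      constructor <;> omega
  · exact (hasSum_V 5 hT).congr_fun v0
  · exact hb.congr_fun (fun p => v1 p.1 p.2)
  · refine hb.congr_fun (fun p => ?_)
    rw [← v1 p.1 p.2]
    simp only [hsq, sg_neg]
    rw [add_comm (sq _), mul_comm (sg _)]
  · refine hb.congr_fun (fun p => ?_)
    rw [← v1 p.1 p.2]
    simp only [hsq, sg_neg]
    rw [add_comm (sq _), mul_comm (sg _)]
  · refine hb.congr_fun (fun p => ?_)
    rw [← v1 p.1 p.2]
    simp only [hsq, sg_neg]

end Pool.Agent.Helper69.QS
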