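import Pool.Agent.Helper69.QS.Lattice2

set_option autoImplicit false

/-!
# Lattice sum identities for triangular numbers
-/

namespace Pool.Agent.Helper69.QS

open PowerSeries Filter Finset
open scoped PowerSeries.WithPiTopology Topology

lemma inj_of (g : ℤ × ℤ → ℤ × ℤ) (h : ∀ a b c d : ℤ, g (a, b) = g (c, d) → a = c ∧ b = d) :
    Function.Injective g := by
  rintro ⟨a, b⟩ ⟨c, d⟩ hh
  obtain ⟨h1, h2⟩ := h a b c d hh
  rw [h1, h2]

lemma tri_neg_sub' (k : ℤ) : tri (-k - 1) = tri k := tri_neg_sub k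

/-- `4 ψ(q)² = 4 q ψ(q^5)² + 4 f(q,q^4) f(q^2,q^3)` -/
lemma Psi2_sq_eq : Psi2 * Psi2 = X * V 5 (Psi2 * Psi2) + 4 * (tp 1 4 * tp 2 3) := by
  have hT0 := hasSum_mul FF_tri FF_tri hasSum_Psi2 hasSum_Psi2
  have hT : HasSum (fun p : ℤ × ℤ => (monomial (tri p.1 + tri p.2) 1 : ℤ⟦X⟧)) (Psi2 * Psi2) := by
    refine hT0.congr_fun (fun p => ?_)
    rw [mul_one]
  have v0 : ∀ p : ℤ × ℤ, (monomial (tri (2 * p.1 - p.2) + tri (p.1 + 2 * p.2 + 1)) 1 : ℤ⟦X⟧)
      = X * V 5 (monomial (tri p.1 + tri p.2) 1) := by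
    rintro ⟨c, d⟩
    simp only
    have hx : (X : ℤ⟦X⟧) = monomial 1 1 := rfl
    rw [V_monomial, hx, monomial_mul_monomial, mul_one]
    have he : tri (2 * c - d) + tri (c + 2 * d + 1) = 1 + 5 * (tri c + tri d) := by
      have e1 := two_mul_tri (2 * c - d)
      have e2 := two_mul_tri (c + 2 * d + 1)
      have e3 := two_mul_tri c
      have e4 := two_mul_tri d
      have : ((tri (2 * c - d) + tri (c + 2 * d + 1) : ℕ) : ℤ) = ((1 + 5 * (tri c + tri d) : ℕ) : ℤ) := by
        push_cast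
        nlinarith
      exact_mod_cast this
    rw [he]
  have hb0 := hasSum_mul (e := fun k : ℤ => 1 * tri k + 4 * tri (k - 1)) (g := fun _ => 1)
      (e' := fun k : ℤ => 2 * tri k + 3 * tri (k - 1)) (g' := fun _ => 1)
      (FF_ij 1 4 (by norm_num) (by norm_num)) (FF_ij 2 3 (by norm_num) (by norm_num))
      (hasSum_tp 1 4 (by norm_num) (by norm_num)) (hasSum_tp 2 3 (by norm_num) (by norm_num))
  have v1 : ∀ a b : ℤ, (monomial (tri (2 * a - b - 1) + tri (a + 2 * b - 1)) 1 : ℤ⟦X⟧)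
      = monomial ((1 * tri a + 4 * tri (a - 1)) + (2 * tri b + 3 * tri (b - 1))) (1 * 1) := by
    intro a b
    rw [mul_one]
    have he : tri (2 * a - b - 1) + tri (a + 2 * b - 1) = (1 * tri a + 4 * tri (a - 1)) + (2 * tri b + 3 * tri (b - 1)) := by
      have e1 := two_mul_tri (2 * a - b - 1)
      have e2 := two_mul_tri (a + 2 * b - 1)
      have e3 := two_mul_tri a
      have e4 := two_mul_tri (a - 1)
      have e5 := two_mul_tri b
      have e6 := two_mul_tri (b - 1)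
      have : ((tri (2 * a - b - 1) + tri (a + 2 * b - 1) : ℕ) : ℤ)
          = (((1 * tri a + 4 * tri (a - 1)) + (2 * tri b + 3 * tri (b - 1)) : ℕ) : ℤ) := by
        push_cast
        nlinarith
      exact_mod_cast this
    rw [he]
  apply hasSum_five (g0 := fun p => (2 * p.1 - p.2, p.1 + 2 * p.2 + 1))
    (g1 := fun p => (p.1 + 2 * p.2 - 1, -(2 * p.1 - p.2 - 1) - 1))
    (g2 := fun p => (-(2 * p.1 - p.2 - 1) - 1, -(p.1 + 2 * p.2 - 1) - 1))
    (g3 := fun p => (2 * p.1 - p.2 - 1, p.1 + 2 * p.2 - 1))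
    (g4 := fun p => (-(p.1 + 2 * p.2 - 1) - 1, 2 * p.1 - p.2 - 1))
    (fun p => p.1 - 2 * p.2 - 3) _ _ _ _ _ _ _ _ _ _ _ _ _ _ _ hT
  · apply inj_of; intro a b c d h; simp only [Prod.mk.injEq] at h; omega
  · apply inj_of; intro a b c d h; simp only [Prod.mk.injEq] at h; omega
  · apply inj_of; intro a b c d h; simp only [Prod.mk.injEq] at h; omega
  · apply inj_of; intro a b c d h; simp only [Prod.mk.injEq] at h; omega
  · apply inj_of; intro a b c d h; simp only [Prod.mk.injEq] at h; omega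
  · rintro ⟨m, n⟩
    constructor
    · rintro ⟨⟨a, b⟩, h⟩
      simp only [Prod.mk.injEq] at h
      simp only
      exact ⟨-b - 1, by omega⟩
    · rintro ⟨c, hc⟩
      simp only at hc
      refine ⟨(n + 2 * c + 1, -c - 1), ?_⟩
      simp only [Prod.mk.injEq]
      constructor <;> omega
  · rintro ⟨m, n⟩
    constructor
    · rintro ⟨⟨a, b⟩, h⟩
      simp only [Prod.mk.injEq] at h
      simp only
      exact ⟨a - 1, by omega⟩
    · rintro ⟨c, hc⟩
      simp only at hc
      refine ⟨(c + 1, n + 2 * c + 2), ?_⟩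
      simp only [Prod.mk.injEq]
      constructor <;> omega
  · rintro ⟨m, n⟩
    constructor
    · rintro ⟨⟨a, b⟩, h⟩
      simp only [Prod.mk.injEq] at h
      simp only
      exact ⟨b - 1, by omega⟩
    · rintro ⟨c, hc⟩
      simp only at hc
      refine ⟨(-n - 2 * c - 2, c + 1), ?_⟩
      simp only [Prod.mk.injEq]
      constructor <;> omega
  · rintro ⟨m, n⟩
    constructor
    · rintro ⟨⟨a, b⟩, h⟩
      simp only [Prod.mk.injEq] at h
      simp only
      exact ⟨-b - 1, by omega⟩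
    · rintro ⟨c, hc⟩
      simp only at hc
      refine ⟨(n + 2 * c + 3, -c - 1), ?_⟩
      simp only [Prod.mk.injEq]
      constructor <;> omega
  · rintro ⟨m, n⟩
    constructor
    · rintro ⟨⟨a, b⟩, h⟩
      simp only [Prod.mk.injEq] at h
      simp only
      exact ⟨-a - 1, by omega⟩
    · rintro ⟨c, hc⟩
      simp only at hc
      refine ⟨(-c - 1, -n - 2 * c - 3), ?_⟩
      simp only [Prod.mk.injEq]
      constructor <;> omega
  · exact ((hasSum_V 5 hT).mul_left X).congr_fun v0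
  · refine hb0.congr_fun (fun p => ?_)
    rw [← v1 p.1 p.2]
    simp only [tri_neg_sub]
    rw [add_comm (tri _)]
  · refine hb0.congr_fun (fun p => ?_)
    rw [← v1 p.1 p.2]
    simp only [tri_neg_sub]
  · refine hb0.congr_fun (fun p => ?_)
    rw [← v1 p.1 p.2]
  · refine hb0.congr_fun (fun p => ?_)
    rw [← v1 p.1 p.2]
    simp only [tri_neg_sub]
    rw [add_comm (tri _)]

/-- `4 E^6 = 2 ((ψ₂ + 4 Dψ₂) φ(q) - 4 ψ₂ Dφ(q))`, where `ψ₂ = ∑ q^(u²+u)` over all integers -/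
lemma J_sq_eq : J * J = 2 * ((V 2 Psi2 + 4 * D (V 2 Psi2)) * phip - V 2 Psi2 * (4 * D phip)) := by
  have hT := hasSum_mul FF_tri FF_tri hasSum_J hasSum_J
  set f : ℤ × ℤ → ℤ⟦X⟧ := fun p => monomial (tri p.1 + tri p.2) (sg p.1 * (2 * p.1 + 1) * (sg p.2 * (2 * p.2 + 1))) with hf
  have hT' : HasSum f (J * J) := hT
  set g0 : ℤ × ℤ → ℤ × ℤ := fun p => (p.1 + p.2, p.1 - p.2) with hg0
  set g1 : ℤ × ℤ → ℤ × ℤ := fun p => (p.1 + p.2, p.2 - p.1 - 1) with hg1
  have i0 : Function.Injective g0 := by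
    apply inj_of; intro a b c d h; simp only [hg0, Prod.mk.injEq] at h; omega
  have i1 : Function.Injective g1 := by
    apply inj_of; intro a b c d h; simp only [hg1, Prod.mk.injEq] at h; omega
  have m0 : ∀ p, p ∈ Set.range g0 ↔ (2 : ℤ) ∣ p.1 + p.2 := by
    rintro ⟨m, n⟩
    constructor
    · rintro ⟨⟨a, b⟩, h⟩
      simp only [hg0, Prod.mk.injEq] at h
      simp only
      exact ⟨a, by omega⟩
    · rintro ⟨c, hc⟩
      simp only at hc
      refine ⟨(c, m - c), ?_⟩
      simp only [hg0, Prod.mk.injEq]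
      constructor <;> omega
  have m1 : ∀ p, p ∈ Set.range g1 ↔ ¬ (2 : ℤ) ∣ p.1 + p.2 := by
    rintro ⟨m, n⟩
    constructor
    · rintro ⟨⟨a, b⟩, h⟩
      simp only [hg1, Prod.mk.injEq] at h
      simp only
      omega
    · intro hc
      simp only at hc
      refine ⟨(m - (m + n + 1) / 2, (m + n + 1) / 2), ?_⟩
      simp only [hg1, Prod.mk.injEq]
      constructor <;> omega
  have he : ∀ u v : ℤ, tri (u + v) + tri (u - v) = 2 * tri u + sq v := by
    intro u v
    have e1 := two_mul_tri (u + v)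
    have e2 := two_mul_tri (u - v)
    have e3 := two_mul_tri u
    have e4 := sq_cast v
    have : ((tri (u + v) + tri (u - v) : ℕ) : ℤ) = ((2 * tri u + sq v : ℕ) : ℤ) := by
      push_cast
      nlinarith
    exact_mod_cast this
  have v0 : ∀ p : ℤ × ℤ, f (g0 p) = monomial (2 * tri p.1 + sq p.2) ((1 + 4 * (2 * tri p.1 : ℤ)) * 1)
      - monomial (2 * tri p.1 + sq p.2) (1 * (4 * (sq p.2 : ℤ))) := by
    rintro ⟨u, v⟩
    simp only [hf, hg0]
    rw [he, ← map_sub]
    congr 1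
    have e3 := two_mul_tri u
    have e4 := sq_cast v
    rw [e3, e4]
    have hs : sg (u + v) * sg (u - v) = 1 := by
      rw [← sg_add, show u + v + (u - v) = 2 * u by ring, sg_two_mul]
    linear_combination ((2 * (u + v) + 1) * (2 * (u - v) + 1)) * hs
  have v1 : ∀ p : ℤ × ℤ, f (g1 p) = f (g0 p) := by
    rintro ⟨u, v⟩
    simp only [hf, hg0, hg1]
    have ht : tri (v - u - 1) = tri (u - v) := by
      rw [← tri_neg_sub (u - v)]; congr 1; ring
    rw [ht]
    congr 1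
    have hs : sg (v - u - 1) = - sg (u - v) := by
      rw [show v - u - 1 = -(u - v) + -1 by ring, sg_add, sg_neg, sg_neg, sg_one]; ring
    rw [hs]; ring
  have hPhip := hasSum_phip
  have hV : HasSum (fun k : ℤ => (monomial (2 * tri k) 1 : ℤ⟦X⟧)) (V 2 Psi2) := by
    refine (hasSum_V 2 hasSum_Psi2).congr_fun (fun k => ?_)
    rw [V_monomial]
  have hV4 : HasSum (fun k : ℤ => (monomial (2 * tri k) (1 + 4 * (2 * tri k : ℤ)) : ℤ⟦X⟧)) (V 2 Psi2 + 4 * D (V 2 Psi2)) := by
    have h1 := (hasSum_D hV).mul_left (4 : ℤ⟦X⟧)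
    refine (hV.add h1).congr_fun (fun k => ?_)
    have h4 : (4 : ℤ⟦X⟧) = C (4 : ℤ) := rfl
    rw [D_monomial, h4, ← monomial_zero_eq_C_apply, monomial_mul_monomial, zero_add, ← map_add]
    congr 1
    push_cast
    ring
  have hP4 : HasSum (fun k : ℤ => (monomial (sq k) (4 * (sq k : ℤ)) : ℤ⟦X⟧)) (4 * D phip) := by
    have h1 := (hasSum_D hasSum_phip).mul_left (4 : ℤ⟦X⟧)
    refine h1.congr_fun (fun k => ?_)
    have h4 : (4 : ℤ⟦X⟧) = C (4 : ℤ) := rfl
    rw [D_monomial, h4, ← monomial_zero_eq_C_apply, monomial_mul_monomial, zero_add]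
    congr 1
    ring
  have F2 : FF (fun k : ℤ => 2 * tri k) := FF_tri.mono (fun k => by omega)
  have a1 := hasSum_mul (e := fun k : ℤ => 2 * tri k) (g := fun k => 1 + 4 * (2 * tri k : ℤ)) (e' := sq) (g' := fun _ => 1) F2 FF_sq hV4 hasSum_phip
  have a2 := hasSum_mul (e := fun k : ℤ => 2 * tri k) (g := fun _ => 1) (e' := sq) (g' := fun k => 4 * (sq k : ℤ)) F2 FF_sq hV hP4
  have a0 : HasSum (fun p => f (g0 p)) ((V 2 Psi2 + 4 * D (V 2 Psi2)) * phip - V 2 Psi2 * (4 * D phip)) := (a1.sub a2).congr_fun v0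
  have s0 := hasSum_indicator_of_param i0 a0
  have s1 := hasSum_indicator_of_param i1 (a0.congr_fun v1)
  have hfun : ∀ p, f p = (Set.range g0).indicator f p + (Set.range g1).indicator f p := by
    intro p
    by_cases h : (2 : ℤ) ∣ p.1 + p.2
    · rw [Set.indicator_of_mem ((m0 p).mpr h), Set.indicator_of_notMem (fun h' => (m1 p).mp h' h)]
      ring
    · rw [Set.indicator_of_mem ((m1 p).mpr h), Set.indicator_of_notMem (fun h' => h ((m0 p).mp h'))]
      ring
  rw [hT'.unique ((s0.add s1).congr_fun hfun)]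
  ring

end Pool.Agent.Helper69.QS
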