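import Pool.Agent.Helper69.QS.Basic

set_option autoImplicit false

/-!
# Infinite products and the triple product for integer power series
-/

namespace Pool.Agent.Helper69.QS

open PowerSeries Filter Finset
open scoped PowerSeries.WithPiTopology Topology

/-- the infinite product `∏ (1 + u n)` -/
noncomputable def pr (u : ℕ → ℤ⟦X⟧) : ℤ⟦X⟧ := ∏' n, (1 + u n)

lemma tendsto_pr {u : ℕ → ℤ⟦X⟧} (h : ∀ n, (X : ℤ⟦X⟧) ^ (n + 1) ∣ u n) :
    Tendsto (fun N => ∏ i ∈ range N, (1 + u i)) atTop (𝓝 (pr u)) := by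
  have hm : Multipliable (fun n => 1 + u n) := by
    apply WithPiTopology.multipliable_one_add_of_tendsto_order_atTop_nhds_top
    refine ENat.tendsto_nhds_top_iff_natCast_lt.mpr (fun n ↦ Filter.eventually_atTop.mpr ⟨n, ?_⟩)
    intro m hm
    have h1 : ((m + 1 : ℕ) : ℕ∞) ≤ (u m).order := by
      apply PowerSeries.nat_le_order
      intro i hi
      exact (X_pow_dvd_iff.mp (h m)) i hi
    refine lt_of_lt_of_le ?_ h1
    norm_cast
    omega
  exact hm.tendsto_prod_tprod_nat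

/-- `∏ (1 - q^n)`, the Euler function -/
noncomputable def E : ℤ⟦X⟧ := pentagonalSeries ℤ

lemma tendsto_E : Tendsto (fun N => ∏ i ∈ range N, (1 - (X : ℤ⟦X⟧) ^ (i + 1))) atTop (𝓝 E) :=
  (WithPiTopology.hasProd_one_sub_X_pow ℤ).tendsto_prod_nat

lemma tendsto_VE (k : ℕ) [NeZero k] :
    Tendsto (fun N => ∏ i ∈ range N, (1 - (X : ℤ⟦X⟧) ^ (k * (i + 1)))) atTop (𝓝 (V k E)) := by
  have := tendsto_V k tendsto_E
  refine this.congr ?_
  intro N
  rw [map_prod]
  apply prod_congr rfl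
  intro i _
  rw [map_sub, map_one, map_pow, V_X, ← pow_mul]

/-- `∏ (1 - q^(i + c m))` -/
noncomputable def PN (i c : ℕ) : ℤ⟦X⟧ := pr (fun m => -X ^ (i + c * m))

/-- `∏ (1 + q^(i + c m))` -/
noncomputable def PP (i c : ℕ) : ℤ⟦X⟧ := pr (fun m => X ^ (i + c * m))

lemma tendsto_PN (i c : ℕ) (hi : 0 < i) (hc : 0 < c) :
    Tendsto (fun N => ∏ m ∈ range N, (1 - (X : ℤ⟦X⟧) ^ (i + c * m))) atTop (𝓝 (PN i c)) := by
  have := tendsto_pr (u := fun m => -X ^ (i + c * m)) (by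
    intro n
    rw [dvd_neg]
    apply pow_dvd_pow
    nlinarith)
  unfold PN
  simpa only [← sub_eq_add_neg] using this

lemma tendsto_PP (i c : ℕ) (hi : 0 < i) (hc : 0 < c) :
    Tendsto (fun N => ∏ m ∈ range N, (1 + (X : ℤ⟦X⟧) ^ (i + c * m))) atTop (𝓝 (PP i c)) := by
  apply tendsto_pr
  intro n
  apply pow_dvd_pow
  nlinarith

/-- `∏ (1 + q^n)` -/
noncomputable def F : ℤ⟦X⟧ := PP 1 1

/-- `∏ (1 + q^(2n-1))` -/
noncomputable def Fo : ℤ⟦X⟧ := PP 1 2

/-- `∏ (1 - q^(2n-1))` -/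
noncomputable def Oo : ℤ⟦X⟧ := PN 1 2

lemma Oo_mul : Oo * V 2 E = E := by
  have h1 := (tendsto_PN 1 2 one_pos two_pos).mul (tendsto_VE 2)
  have h2 := tendsto_subseq tendsto_E 2 two_pos
  refine tendsto_nhds_unique h1 (h2.congr ?_)
  intro N
  induction N with
  | zero => simp
  | succ N ih =>
    rw [prod_range_succ, prod_range_succ, show 2 * (N + 1) = 2 * N + 1 + 1 by ring, prod_range_succ,
      prod_range_succ, ih]
    have e1 : 1 + 2 * N = 2 * N + 1 := by ring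
    rw [e1]
    ring

lemma F_mul_E : F * E = V 2 E := by
  have h1 := (tendsto_PP 1 1 one_pos one_pos).mul tendsto_E
  refine tendsto_nhds_unique h1 ((tendsto_VE 2).congr ?_)
  intro N
  rw [← prod_mul_distrib]
  apply prod_congr rfl
  intro i _
  ring

lemma tendsto_VF (k : ℕ) [NeZero k] :
    Tendsto (fun N => ∏ i ∈ range N, (1 + (X : ℤ⟦X⟧) ^ (k * (i + 1)))) atTop (𝓝 (V k F)) := by
  have := tendsto_V k (tendsto_PP 1 1 one_pos one_pos)
  refine this.congr ?_
  intro N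
  rw [map_prod]
  apply prod_congr rfl
  intro i _
  rw [map_add, map_one, map_pow, V_X, ← pow_mul]
  congr 2
  ring

lemma Fo_mul : Fo * V 2 F = F := by
  have h1 := (tendsto_PP 1 2 one_pos two_pos).mul (tendsto_VF 2)
  have h2 := tendsto_subseq (tendsto_PP 1 1 one_pos one_pos) 2 two_pos
  refine tendsto_nhds_unique h1 (h2.congr ?_)
  intro N
  induction N with
  | zero => simp
  | succ N ih =>
    rw [prod_range_succ, prod_range_succ, show 2 * (N + 1) = 2 * N + 1 + 1 by ring, prod_range_succ,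
      prod_range_succ, ih]
    ring

lemma PN_mul_five : (PN 1 10 * PN 9 10) * (PN 3 10 * PN 7 10) * PN 5 10 = Oo := by
  have h1 := (((tendsto_PN 1 10 (by norm_num) (by norm_num)).mul (tendsto_PN 9 10 (by norm_num) (by norm_num))).mul
    ((tendsto_PN 3 10 (by norm_num) (by norm_num)).mul (tendsto_PN 7 10 (by norm_num) (by norm_num)))).mul
    (tendsto_PN 5 10 (by norm_num) (by norm_num))
  have h2 := tendsto_subseq (tendsto_PN 1 2 one_pos two_pos) 5 (by norm_num)
  refine tendsto_nhds_unique h1 (h2.congr ?_)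
  intro N
  induction N with
  | zero => simp
  | succ N ih =>
    rw [prod_range_succ, prod_range_succ, prod_range_succ, prod_range_succ, prod_range_succ,
      show 5 * (N + 1) = 5 * N + 1 + 1 + 1 + 1 + 1 by ring, prod_range_succ, prod_range_succ,
      prod_range_succ, prod_range_succ, prod_range_succ, ih]
    have e1 : 1 + 2 * (5 * N) = 1 + 10 * N := by ring
    have e2 : 1 + 2 * (5 * N + 1) = 3 + 10 * N := by ring
    have e3 : 1 + 2 * (5 * N + 1 + 1) = 5 + 10 * N := by ring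
    have e4 : 1 + 2 * (5 * N + 1 + 1 + 1) = 7 + 10 * N := by ring
    have e5 : 1 + 2 * (5 * N + 1 + 1 + 1 + 1) = 9 + 10 * N := by ring
    rw [e1, e2, e3, e4, e5]
    ring

lemma PN_five_mul : PN 5 10 * V 10 E = V 5 E := by
  have h1 := (tendsto_PN 5 10 (by norm_num) (by norm_num)).mul (tendsto_VE 10)
  have h2 := tendsto_subseq (tendsto_VE 5) 2 two_pos
  refine tendsto_nhds_unique h1 (h2.congr ?_)
  intro N
  induction N with
  | zero => simp
  | succ N ih =>
    rw [prod_range_succ, prod_range_succ, show 2 * (N + 1) = 2 * N + 1 + 1 by ring, prod_range_succ,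
      prod_range_succ, ih]
    have e1 : 5 * (2 * N + 1) = 5 + 10 * N := by ring
    have e2 : 5 * (2 * N + 1 + 1) = 10 * (N + 1) := by ring
    rw [e1, e2]
    ring

lemma PP_mul_five : (PP 1 5 * PP 4 5) * (PP 2 5 * PP 3 5) * V 5 F = F := by
  have h1 := (((tendsto_PP 1 5 (by norm_num) (by norm_num)).mul (tendsto_PP 4 5 (by norm_num) (by norm_num))).mul
    ((tendsto_PP 2 5 (by norm_num) (by norm_num)).mul (tendsto_PP 3 5 (by norm_num) (by norm_num)))).mul
    (tendsto_VF 5)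
  have h2 := tendsto_subseq (tendsto_PP 1 1 one_pos one_pos) 5 (by norm_num)
  refine tendsto_nhds_unique h1 (h2.congr ?_)
  intro N
  induction N with
  | zero => simp
  | succ N ih =>
    rw [prod_range_succ, prod_range_succ, prod_range_succ, prod_range_succ, prod_range_succ,
      show 5 * (N + 1) = 5 * N + 1 + 1 + 1 + 1 + 1 by ring, prod_range_succ, prod_range_succ,
      prod_range_succ, prod_range_succ, prod_range_succ, ih]
    have e1 : 1 + 1 * (5 * N) = 1 + 5 * N := by ring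
    have e2 : 1 + 1 * (5 * N + 1) = 2 + 5 * N := by ring
    have e3 : 1 + 1 * (5 * N + 1 + 1) = 3 + 5 * N := by ring
    have e4 : 1 + 1 * (5 * N + 1 + 1 + 1) = 4 + 5 * N := by ring
    have e5 : 1 + 1 * (5 * N + 1 + 1 + 1 + 1) = 5 * (N + 1) := by ring
    rw [e1, e2, e3, e4, e5]
    ring

/-! ### the triple product -/

/-- The sign `(-1)^k`. -/
def sg (k : ℤ) : ℤ := ((Int.negOnePow k : ℤˣ) : ℤ)

lemma sg_add (a b : ℤ) : sg (a + b) = sg a * sg b := by
  unfold sg; rw [Int.negOnePow_add]; simp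

lemma sg_neg (a : ℤ) : sg (-a) = sg a := by
  unfold sg; rw [Int.negOnePow_neg]

lemma sg_one : sg 1 = -1 := by
  unfold sg; simp

lemma sg_zero : sg 0 = 1 := by
  unfold sg; simp

lemma sg_two_mul (a : ℤ) : sg (2 * a) = 1 := by
  unfold sg; rw [Int.negOnePow_two_mul]; simp

lemma sg_mul_self (a : ℤ) : sg a * sg a = 1 := by
  rw [← sg_add, ← two_mul, sg_two_mul]

lemma sg_eq_of_even_sub {a b : ℤ} (h : Even (a - b)) : sg a = sg b := by
  obtain ⟨c, hc⟩ := h
  have : a = b + 2 * c := by linarith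
  rw [this, sg_add, sg_two_mul, mul_one]

lemma sg_natCast (n : ℕ) : sg n = (-1) ^ n := by
  induction n with
  | zero => simp [sg_zero]
  | succ n ih => rw [Nat.cast_succ, sg_add, ih, sg_one, pow_succ]

lemma neg_one_pow_tri (k : ℤ) : (-1 : ℤ) ^ (tri k + tri (k - 1)) = sg k := by
  have e1 := two_mul_tri k
  have e2 := two_mul_tri (k - 1)
  have h : ((tri k + tri (k - 1) : ℕ) : ℤ) = k * k := by push_cast; linarith
  rw [← sg_natCast, h]
  apply sg_eq_of_even_sub
  have : k * k - k = (k - 1) * (k - 1 + 1) := by ring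
  rw [this]
  exact Int.even_mul_succ_self _

lemma tt_neg (i j : ℕ) (k : ℤ) :
    tt (-(X : ℤ⟦X⟧) ^ i) (-(X : ℤ⟦X⟧) ^ j) k = monomial (i * tri k + j * tri (k - 1)) (sg k) := by
  unfold tt
  rw [monomial_eq_C_mul_X_pow, ← neg_one_pow_tri, neg_pow (X ^ i) _, neg_pow (X ^ j) _]
  rw [map_pow, map_neg, map_one, pow_add, pow_add, pow_mul, pow_mul]
  ring

lemma tt_pos (i j : ℕ) (k : ℤ) :
    tt ((X : ℤ⟦X⟧) ^ i) ((X : ℤ⟦X⟧) ^ j) k = monomial (i * tri k + j * tri (k - 1)) 1 := by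
  unfold tt
  rw [monomial_eq_C_mul_X_pow, map_one, one_mul, pow_add, pow_mul, pow_mul]

lemma natAbs_le_tri (k : ℤ) : k.natAbs ≤ tri k + tri (k - 1) := by
  have e1 := two_mul_tri k
  have e2 := two_mul_tri (k - 1)
  have h : ((tri k + tri (k - 1) : ℕ) : ℤ) = k * k := by push_cast; linarith
  have h2 : (k.natAbs : ℤ) * k.natAbs = k * k := Int.natAbs_mul_self' k
  have h3 : k.natAbs ≤ k.natAbs * k.natAbs := Nat.le_mul_self _
  have h4 : ((k.natAbs * k.natAbs : ℕ) : ℤ) = ((tri k + tri (k - 1) : ℕ) : ℤ) := by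
    rw [h, ← h2]; push_cast; ring
  have h5 : k.natAbs * k.natAbs = tri k + tri (k - 1) := by exact_mod_cast h4
  omega

lemma natAbs_le_tri_sub (k : ℤ) : k.natAbs ≤ tri (k - 1) + 1 := by
  have e2 := two_mul_tri (k - 1)
  have h1 : k ≤ tri (k - 1) + 1 := by
    have : 2 * k ≤ 2 * (tri (k - 1) + 1) := by rw [mul_add, e2]; nlinarith [sq_nonneg (2 * k - 3)]
    linarith
  have h2 : -k ≤ tri (k - 1) + 1 := by
    have : 2 * (-k) ≤ 2 * (tri (k - 1) + 1) := by rw [mul_add, e2]; nlinarith [sq_nonneg (2 * k + 1)]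
    linarith
  omega

lemma FF_ij (i j : ℕ) (hi : 0 < i) (hj : 0 < j) : FF (fun k : ℤ => i * tri k + j * tri (k - 1)) := by
  apply FF.of_bound 0
  intro k
  have := natAbs_le_tri k
  have h1 : tri k ≤ i * tri k := Nat.le_mul_of_pos_left _ hi
  have h2 : tri (k - 1) ≤ j * tri (k - 1) := Nat.le_mul_of_pos_left _ hj
  omega

/-- `f(-q^i, -q^j)` -/
noncomputable def tm (i j : ℕ) : ℤ⟦X⟧ := th (fun k : ℤ => i * tri k + j * tri (k - 1)) sg

/-- `f(q^i, q^j)` -/
noncomputable def tp (i j : ℕ) : ℤ⟦X⟧ := th (fun k : ℤ => i * tri k + j * tri (k - 1)) (fun _ => 1)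

lemma hasSum_tm (i j : ℕ) (hi : 0 < i) (hj : 0 < j) :
    HasSum (fun k : ℤ => (monomial (i * tri k + j * tri (k - 1)) (sg k) : ℤ⟦X⟧)) (tm i j) :=
  hasSum_th _ (FF_ij i j hi hj)

lemma hasSum_tp (i j : ℕ) (hi : 0 < i) (hj : 0 < j) :
    HasSum (fun k : ℤ => (monomial (i * tri k + j * tri (k - 1)) 1 : ℤ⟦X⟧)) (tp i j) :=
  hasSum_th _ (FF_ij i j hi hj)

lemma jtp_limit (a b La Lb L : ℤ⟦X⟧) (c : ℕ) [NeZero c] (hab : a * b = X ^ c)
    (ha : Tendsto (fun N => ∏ i ∈ range N, (1 + a * X ^ (c * i))) atTop (𝓝 La))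
    (hb : Tendsto (fun N => ∏ i ∈ range N, (1 + b * X ^ (c * i))) atTop (𝓝 Lb))
    (hs : HasSum (tt a b) L) : L = V c E * (La * Lb) := by
  have h1 := theta_tendsto hs
  have h2 : Tendsto (fun N => (∏ i ∈ range N, (1 - (X : ℤ⟦X⟧) ^ (c * (i + 1)))) *
      ((∏ i ∈ range N, (1 + a * X ^ (c * i))) * (∏ i ∈ range N, (1 + b * X ^ (c * i))))) atTop
      (𝓝 (V c E * (La * Lb))) := (tendsto_VE c).mul (ha.mul hb)
  have h3 : Tendsto (fun N : ℕ => ∑ j ∈ range (2 * N + 1), tt a b ((j : ℤ) - N)) atTop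
      (𝓝 (V c E * (La * Lb))) := by
    refine tendsto_of_dvd ?_ h2
    intro N
    have h4 := jtp_dvd a b N
    rw [hab] at h4
    simp only [← pow_mul] at h4
    refine dvd_trans (pow_dvd_pow _ ?_) h4
    exact Nat.le_mul_of_pos_left _ (Nat.pos_of_ne_zero (NeZero.ne c))
  exact tendsto_nhds_unique h1 h3

lemma tm_eq (i j c : ℕ) [NeZero c] (hi : 0 < i) (hj : 0 < j) (hc : i + j = c) :
    tm i j = V c E * (PN i c * PN j c) := by
  have hcp : 0 < c := Nat.pos_of_ne_zero (NeZero.ne c)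
  apply jtp_limit (-X ^ i) (-X ^ j) _ _ _ c
  · rw [← hc, pow_add]; ring
  · refine (tendsto_PN i c hi hcp).congr ?_
    intro N
    apply prod_congr rfl
    intro m _
    rw [pow_add]; ring
  · refine (tendsto_PN j c hj hcp).congr ?_
    intro N
    apply prod_congr rfl
    intro m _
    rw [pow_add]; ring
  · refine (hasSum_tm i j hi hj).congr_fun ?_
    intro k
    rw [tt_neg]

lemma tp_eq (i j c : ℕ) [NeZero c] (hi : 0 < i) (hj : 0 < j) (hc : i + j = c) :
    tp i j = V c E * (PP i c * PP j c) := by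
  have hcp : 0 < c := Nat.pos_of_ne_zero (NeZero.ne c)
  apply jtp_limit (X ^ i) (X ^ j) _ _ _ c
  · rw [← hc, pow_add]
  · refine (tendsto_PP i c hi hcp).congr ?_
    intro N
    apply prod_congr rfl
    intro m _
    rw [pow_add]
  · refine (tendsto_PP j c hj hcp).congr ?_
    intro N
    apply prod_congr rfl
    intro m _
    rw [pow_add]
  · refine (hasSum_tp i j hi hj).congr_fun ?_
    intro k
    rw [tt_pos]

/-- `∑_k q^(k(k+1)/2)` over all integers -/
noncomputable def Psi2 : ℤ⟦X⟧ := th tri (fun _ => 1)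

lemma FF_tri : FF tri := by
  apply FF.of_bound 2
  intro k
  have := natAbs_le_tri_sub (k + 1)
  have e : k + 1 - 1 = k := by ring
  rw [e] at this
  omega

lemma hasSum_Psi2 : HasSum (fun k : ℤ => (monomial (tri k) 1 : ℤ⟦X⟧)) Psi2 := hasSum_th _ FF_tri

lemma Psi2_eq : Psi2 = 2 * (F * F * E) := by
  have h0 : Tendsto (fun N => ∏ i ∈ range N, (1 + (1 : ℤ⟦X⟧) * X ^ (1 * i))) atTop (𝓝 (2 * F)) := by
    rw [← tendsto_add_atTop_iff_nat 1]
    have := (tendsto_PP 1 1 one_pos one_pos).const_mul (2 : ℤ⟦X⟧)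
    refine this.congr ?_
    intro N
    rw [prod_range_succ']
    have : (1 + (1 : ℤ⟦X⟧) * X ^ (1 * 0)) = 2 := by norm_num
    rw [this, mul_comm]
    congr 1
    apply prod_congr rfl
    intro i _
    congr 1
    rw [one_mul]
    ring
  have h1 : Tendsto (fun N => ∏ i ∈ range N, (1 + (X : ℤ⟦X⟧) * X ^ (1 * i))) atTop (𝓝 F) := by
    refine (tendsto_PP 1 1 one_pos one_pos).congr ?_
    intro N
    apply prod_congr rfl
    intro i _
    rw [pow_add, pow_one]
  have h2 : HasSum (tt (1 : ℤ⟦X⟧) X) Psi2 := by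
    have h3 : HasSum (fun k : ℤ => (monomial (tri (k - 1)) 1 : ℤ⟦X⟧)) Psi2 := by
      have := (Equiv.subRight (1 : ℤ)).hasSum_iff (f := fun k : ℤ => (monomial (tri k) 1 : ℤ⟦X⟧)) (a := Psi2)
      exact this.mpr hasSum_Psi2
    refine h3.congr_fun ?_
    intro k
    unfold tt
    rw [one_pow, one_mul, monomial_eq_C_mul_X_pow, map_one, one_mul]
  have := jtp_limit (1 : ℤ⟦X⟧) X (2 * F) F Psi2 1 (by ring) h0 h1 h2
  rw [this]
  have hv : V 1 E = E := by
    ext n
    rw [coeff_V]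
    simp
  rw [hv]
  ring

end Pool.Agent.Helper69.QS
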